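import Pool.Agent.K1H57.HT.Main
import Mathlib.Analysis.InnerProductSpace.JointEigenspace

/-!
# Commuting skew forms
-/

set_option autoImplicit false

namespace Pool.Agent.K1H57.HT

open Pool.Agent.Y195.HF Pool.Agent.W666.GB Pool.Agent.W669.HD Finset

/-- a common eigenvector -/
theorem common_eigen {V : Type} [NormedAddCommGroup V] [InnerProductSpace ℝ V]
    [FiniteDimensional ℝ V] {ι : Type} (a : ι → V →ₗ[ℝ] V)
    (hs : ∀ s x y, (inner ℝ (a s x) y : ℝ) = - inner ℝ x (a s y))
    (hc : ∀ s t x, a s (a t x) = a t (a s x)) {s₀ : ι} (h0 : a s₀ ≠ 0) :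
    ∃ (χ : ι → ℝ) (x : V), (∀ s, a s₀ (a s x) = χ s • x) ∧ a s₀ (a s₀ x) ≠ 0 := by
  set T : ι → V →ₗ[ℝ] V := fun s => a s₀ ∘ₗ a s with hT
  have hsym : ∀ s, (T s).IsSymmetric := by
    intro s x y
    simp only [hT, LinearMap.comp_apply]
    rw [hs, hs, hc s s₀]
    ring
  have hcom : Pairwise (Function.onFun Commute T) := by
    intro s t _
    show T s * T t = T t * T s
    ext x
    simp only [hT, Module.End.mul_apply, LinearMap.comp_apply]
    rw [hc s s₀, hc t s₀, hc s t]
  have htop := LinearMap.IsSymmetric.iSup_iInf_eq_top_of_commute hsym hcom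
  by_contra hcon
  push Not at hcon
  have hle : (⊤ : Submodule ℝ V) ≤ LinearMap.ker (T s₀) := by
    rw [← htop]
    refine iSup_le fun χ => ?_
    intro x hx
    rw [Submodule.mem_iInf] at hx
    rw [LinearMap.mem_ker]
    exact hcon χ x fun s => Module.End.mem_eigenspace_iff.mp (hx s)
  apply h0
  ext x
  have h1 : T s₀ x = 0 := hle (Submodule.mem_top (x := x))
  have h2 := hs s₀ x (a s₀ x)
  have h3 : a s₀ (a s₀ x) = 0 := h1
  rw [h3, inner_zero_right, neg_zero] at h2
  rw [inner_self_eq_zero.mp h2]
  rfl

/-- simultaneous normal form of commuting skew operators -/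
theorem blocks (k : ℕ) : ∀ (V : Type) [NormedAddCommGroup V] [InnerProductSpace ℝ V]
    [FiniteDimensional ℝ V] (ι : Type) (a : ι → V →ₗ[ℝ] V), Module.finrank ℝ V = 2 * k →
    (∀ s x y, (inner ℝ (a s x) y : ℝ) = - inner ℝ x (a s y)) →
    (∀ s t x, a s (a t x) = a t (a s x)) →
    ∃ u : Fin k × Bool → V, Orthonormal ℝ u ∧ ∀ s i, ∃ c : ℝ,
      a s (u (i, false)) = c • u (i, true) ∧ a s (u (i, true)) = (-c) • u (i, false) := by
  induction k with
  | zero =>
    intro V _ _ _ ι a _ _ _
    refine ⟨fun x => x.1.elim0, ⟨fun x => x.1.elim0, fun x => x.1.elim0⟩, fun s i => i.elim0⟩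
  | succ k ih =>
    intro V _ _ _ ι a hd hs hc
    by_cases h0 : ∀ s, a s = 0
    · have hcard : Fintype.card (Fin (Module.finrank ℝ V)) = Fintype.card (Fin (k + 1) × Bool) := by
        simp only [Fintype.card_fin, Fintype.card_prod, Fintype.card_bool, hd]
        ring
      set b := (stdOrthonormalBasis ℝ V).reindex (Fintype.equivOfCardEq hcard)
      refine ⟨b, b.orthonormal, fun s i => ⟨0, ?_, ?_⟩⟩ <;> rw [h0 s] <;> simp
    · push Not at h0
      obtain ⟨s₀, hs₀⟩ := h0
      obtain ⟨χ, x, hx, hne⟩ := common_eigen a hs hc hs₀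
      have hb : a s₀ x ≠ 0 := fun h => hne (by rw [h, map_zero])
      have hx0 : x ≠ 0 := fun h => hb (by rw [h, map_zero])
      have hχ : χ s₀ ≠ 0 := fun h => hne (by rw [hx, h, zero_smul])
      have hax : ∀ s, a s x = (χ s / χ s₀) • a s₀ x := by
        intro s
        have h1 : a s₀ (a s₀ (a s x)) = χ s • a s₀ x := by rw [hx s, map_smul]
        have h2 : a s₀ (a s₀ (a s x)) = χ s₀ • a s x := by
          rw [hc s₀ s x, hc s₀ s, hx s₀, map_smul]
        rw [h1] at h2
        rw [div_eq_inv_mul, mul_smul, h2, smul_smul, inv_mul_cancel₀ hχ, one_smul]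
      have hperp : (inner ℝ x (a s₀ x) : ℝ) = 0 := by
        have := hs s₀ x x
        rw [real_inner_comm] at this
        linarith
      obtain ⟨u₀, hu₀⟩ : ∃ v : V, v = ‖x‖⁻¹ • x := ⟨_, rfl⟩
      obtain ⟨u₁, hu₁⟩ : ∃ v : V, v = ‖a s₀ x‖⁻¹ • a s₀ x := ⟨_, rfl⟩
      have n0 : ‖u₀‖ = 1 := by rw [hu₀]; exact norm_smul_inv_norm (𝕜 := ℝ) hx0
      have n1 : ‖u₁‖ = 1 := by rw [hu₁]; exact norm_smul_inv_norm (𝕜 := ℝ) hb
      have i01 : (inner ℝ u₀ u₁ : ℝ) = 0 := by
        rw [hu₀, hu₁, inner_smul_left, inner_smul_right, hperp]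
        simp
      have hxn : ‖x‖ ≠ 0 := norm_ne_zero_iff.mpr hx0
      have hbn : ‖a s₀ x‖ ≠ 0 := norm_ne_zero_iff.mpr hb
      have c0 : ∀ s, ∃ c : ℝ, a s u₀ = c • u₁ := by
        intro s
        refine ⟨‖x‖⁻¹ * (χ s / χ s₀) * ‖a s₀ x‖, ?_⟩
        rw [hu₀, map_smul, hax, hu₁, smul_smul, smul_smul]
        congr 1
        field_simp
      have c1 : ∀ s, ∃ d : ℝ, a s u₁ = d • u₀ := by
        intro s
        refine ⟨‖a s₀ x‖⁻¹ * χ s * ‖x‖, ?_⟩
        rw [hu₁, map_smul, ← hc s₀ s, hx s, hu₀, smul_smul, smul_smul]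
        congr 1
        field_simp
      have cc : ∀ s, ∃ c : ℝ, a s u₀ = c • u₁ ∧ a s u₁ = (-c) • u₀ := by
        intro s
        obtain ⟨c, hc1⟩ := c0 s
        obtain ⟨d, hd1⟩ := c1 s
        have h1 := hs s u₀ u₁
        rw [hc1, hd1, inner_smul_left, inner_smul_right, real_inner_self_eq_norm_sq,
          real_inner_self_eq_norm_sq, n0, n1] at h1
        simp at h1
        refine ⟨c, hc1, ?_⟩
        rw [hd1, h1, neg_neg]
      set W : Submodule ℝ V := (Submodule.span ℝ {u₀, u₁})ᗮ with hW
      have memW : ∀ w, w ∈ W ↔ (inner ℝ u₀ w : ℝ) = 0 ∧ (inner ℝ u₁ w : ℝ) = 0 := by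
        intro w
        rw [hW, Submodule.mem_orthogonal]
        constructor
        · intro h
          exact ⟨h u₀ (Submodule.subset_span (by simp)), h u₁ (Submodule.subset_span (by simp))⟩
        · rintro ⟨h1, h2⟩ y hy
          rw [Submodule.mem_span_pair] at hy
          obtain ⟨p, q, rfl⟩ := hy
          rw [inner_add_left, inner_smul_left, inner_smul_left, h1, h2]
          simp
      have hWa : ∀ s, ∀ w ∈ W, a s w ∈ W := by
        intro s w hw
        rw [memW] at hw ⊢
        obtain ⟨c, h1, h2⟩ := cc s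
        have e1 := hs s u₀ w
        have e2 := hs s u₁ w
        rw [h1, inner_smul_left, hw.2] at e1
        rw [h2, inner_smul_left, hw.1] at e2
        simp at e1 e2
        exact ⟨e1, e2⟩
      have hdim : Module.finrank ℝ W = 2 * k := by
        have h1 := Submodule.finrank_add_finrank_orthogonal (Submodule.span ℝ {u₀, u₁})
        have h2 : Module.finrank ℝ (Submodule.span ℝ {u₀, u₁}) = 2 := by
          have hli : LinearIndependent ℝ ![u₀, u₁] := by
            rw [LinearIndependent.pair_iff]
            intro p q hpq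
            have e1 := congrArg (fun v => (inner ℝ u₀ v : ℝ)) hpq
            have e2 := congrArg (fun v => (inner ℝ u₁ v : ℝ)) hpq
            have i10 : (inner ℝ u₁ u₀ : ℝ) = 0 := by rw [real_inner_comm]; exact i01
            simp only [inner_add_right, inner_smul_right, i01, i10, real_inner_self_eq_norm_sq,
              n0, n1, inner_zero_right] at e1 e2
            constructor <;> linarith
          have h3 := finrank_span_eq_card hli
          have h4 : Set.range ![u₀, u₁] = {u₀, u₁} := by
            simp [Matrix.range_cons, Matrix.range_empty]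
            rw [Set.pair_comm]
          rw [h4] at h3
          simpa using h3
        rw [hd, h2] at h1
        have h5 : Module.finrank ℝ W = Module.finrank ℝ (Submodule.span ℝ {u₀, u₁})ᗮ := rfl
        omega
      obtain ⟨u', hu', hcu'⟩ := ih W ι (fun s => (a s).restrict (hWa s)) hdim
        (fun s x y => by
          have := hs s x y
          simpa [LinearMap.restrict_coe_apply] using this)
        (fun s t x => by
          ext
          simp only [LinearMap.restrict_coe_apply]
          exact hc s t x)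
      refine ⟨fun p => Fin.cases (if p.2 = true then u₁ else u₀) (fun j => (u' (j, p.2) : V)) p.1,
        ?_, ?_⟩
      · have hu'2 := orthonormal_iff_ite.mp hu'
        rw [orthonormal_iff_ite]
        rintro ⟨i, s⟩ ⟨j, t⟩
        have i10 : (inner ℝ u₁ u₀ : ℝ) = 0 := by rw [real_inner_comm]; exact i01
        refine Fin.cases ?_ (fun i => ?_) i <;> refine Fin.cases ?_ (fun j => ?_) j
        · cases s <;> cases t <;> simp [i01, i10, real_inner_self_eq_norm_sq, n0, n1]
        · have h1 := (memW _).mp (u' (j, t)).2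
          cases s <;> simp [h1.1, h1.2, Fin.succ_ne_zero, (Fin.succ_ne_zero j).symm]
        · have h1 := (memW _).mp (u' (i, s)).2
          have h2 : (inner ℝ (u' (i, s) : V) u₀ : ℝ) = 0 := by rw [real_inner_comm]; exact h1.1
          have h3 : (inner ℝ (u' (i, s) : V) u₁ : ℝ) = 0 := by rw [real_inner_comm]; exact h1.2
          cases t <;> simp [h2, h3, Fin.succ_ne_zero]
        · have h1 := hu'2 (i, s) (j, t)
          simp only [Fin.cases_succ]
          have h2 : (inner ℝ (u' (i, s) : V) (u' (j, t) : V) : ℝ) = inner ℝ (u' (i, s)) (u' (j, t)) :=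
            rfl
          rw [h2, h1]
          simp [Fin.succ_inj]
      · intro s i
        refine Fin.cases ?_ (fun i => ?_) i
        · obtain ⟨c, h1, h2⟩ := cc s
          exact ⟨c, by simpa using h1, by simpa using h2⟩
        · obtain ⟨c, h1, h2⟩ := hcu' s i
          refine ⟨c, ?_, ?_⟩
          · have := congrArg (Subtype.val) h1
            simpa [LinearMap.restrict_coe_apply] using this
          · have := congrArg (Subtype.val) h2
            simpa [LinearMap.restrict_coe_apply] using this

section forms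

variable {m : ℕ} {V : Type} [NormedAddCommGroup V] [InnerProductSpace ℝ V]

theorem SkewForm.add' {A : V → V → ℝ} (h : SkewForm A) (x y y' : V) :
    A x (y + y') = A x y + A x y' := by
  rw [h.anti, h.add, h.anti y, h.anti y']; ring

theorem SkewForm.smul' {A : V → V → ℝ} (h : SkewForm A) (t : ℝ) (x y : V) :
    A x (t • y) = t * A x y := by
  rw [h.anti, h.smul, h.anti y]; ring

theorem skew_sum {A : V → V → ℝ} (h : SkewForm A) {J : Type} (s : Finset J) (c : J → ℝ)
    (f : J → V) (y : V) : A (∑ i ∈ s, c i • f i) y = ∑ i ∈ s, c i * A (f i) y := by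
  classical
  induction s using Finset.induction_on with
  | empty => simpa using h.smul 0 0 y
  | insert a s ha ih => rw [sum_insert ha, sum_insert ha, h.add, h.smul, ih]

theorem skew_sum' {A : V → V → ℝ} (h : SkewForm A) {J : Type} (s : Finset J) (c : J → ℝ)
    (f : J → V) (y : V) : A y (∑ i ∈ s, c i • f i) = ∑ i ∈ s, c i * A y (f i) := by
  rw [h.anti, skew_sum h, ← Finset.sum_neg_distrib]
  refine Finset.sum_congr rfl fun i _ => ?_
  rw [h.anti y (f i)]; ring

/-- the operator of a skew form -/
noncomputable def opS (e : OrthonormalBasis (Fin m × Bool) ℝ V) (A : V → V → ℝ)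
    (h : SkewForm A) : V →ₗ[ℝ] V where
  toFun x := ∑ i, A x (e i) • e i
  map_add' x y := by
    rw [← Finset.sum_add_distrib]
    refine Finset.sum_congr rfl fun i _ => ?_
    rw [h.add, add_smul]
  map_smul' t x := by
    rw [RingHom.id_apply, Finset.smul_sum]
    refine Finset.sum_congr rfl fun i _ => ?_
    rw [h.smul, mul_smul]

theorem opS_inner (e : OrthonormalBasis (Fin m × Bool) ℝ V) {A : V → V → ℝ}
    (h : SkewForm A) (x y : V) : (inner ℝ (opS e A h x) y : ℝ) = A x y := by
  have h1 : A x y = A x (∑ i, (inner ℝ (e i) y : ℝ) • e i) := by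
    congr 1
    have := (e.sum_repr y).symm
    simpa [OrthonormalBasis.repr_apply_apply] using this
  rw [h1, skew_sum' h]
  show (inner ℝ (∑ i, A x (e i) • e i) y : ℝ) = _
  rw [sum_inner]
  refine Finset.sum_congr rfl fun i _ => ?_
  rw [inner_smul_left]
  simp only [conj_trivial]
  ring

/-- the two skew forms commute: the associated operators do -/
def CommForms (e : OrthonormalBasis (Fin m × Bool) ℝ V) (A B : V → V → ℝ) : Prop :=
  ∀ x y : V, ∑ i, A x (e i) * B (e i) y = ∑ i, B x (e i) * A (e i) y

theorem opS_comm (e : OrthonormalBasis (Fin m × Bool) ℝ V) {A B : V → V → ℝ}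
    (hA : SkewForm A) (hB : SkewForm B) (h : CommForms e A B) (x : V) :
    opS e A hA (opS e B hB x) = opS e B hB (opS e A hA x) := by
  refine ext_inner_right ℝ fun y => ?_
  rw [opS_inner, opS_inner]
  show A (∑ i, B x (e i) • e i) y = B (∑ i, A x (e i) • e i) y
  rw [skew_sum hA, skew_sum hB]
  exact (h x y).symm

/-- the sum of the curvature tensors of pairwise commuting skew forms in dimension six is torus
invariant -/
theorem comm_torus (e : OrthonormalBasis (Fin 3 × Bool) ℝ V) {n : ℕ} (A : Fin n → V → V → ℝ)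
    (hA : ∀ s, SkewForm (A s)) (hc : ∀ s t, CommForms e (A s) (A t)) :
    AlgCurv (fun x y z w => ∑ s, skewCurv (A s) x y z w) ∧
    (∀ x y, 0 ≤ ∑ s, skewCurv (A s) x y x y) ∧
    TorusInv (fun x y z w => ∑ s, skewCurv (A s) x y z w) := by
  haveI : FiniteDimensional ℝ V := Module.Basis.finiteDimensional_of_finite e.toBasis
  have hfin : Module.finrank ℝ V = 2 * 3 := by
    rw [Module.finrank_eq_card_basis e.toBasis]
    simp
  refine ⟨⟨?_, ?_, ?_, ?_, ?_⟩, ?_, ?_⟩
  · intro x x' y z w
    rw [← Finset.sum_add_distrib]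
    exact Finset.sum_congr rfl fun s _ => (hA s).curv.add _ _ _ _ _
  · intro t x y z w
    rw [Finset.mul_sum]
    exact Finset.sum_congr rfl fun s _ => (hA s).curv.smul _ _ _ _ _
  · intro x y z w
    rw [← Finset.sum_neg_distrib]
    exact Finset.sum_congr rfl fun s _ => (hA s).curv.anti _ _ _ _
  · intro x y z w
    exact Finset.sum_congr rfl fun s _ => (hA s).curv.pair _ _ _ _
  · intro x y z w
    rw [← Finset.sum_add_distrib, ← Finset.sum_add_distrib]
    exact Finset.sum_eq_zero fun s _ => (hA s).curv.bianchi _ _ _ _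
  · intro x y
    refine Finset.sum_nonneg fun s _ => ?_
    unfold skewCurv
    have h1 : A s x x = 0 := by have := (hA s).anti x x; linarith
    rw [h1, (hA s).anti x y]
    nlinarith [sq_nonneg (A s x y)]
  · obtain ⟨u, hu, hcu⟩ := blocks 3 V (Fin n) (fun s => opS e (A s) (hA s)) hfin
      (fun s x y => by
        rw [real_inner_comm (opS e (A s) (hA s) y) x, opS_inner, opS_inner]
        exact (hA s).anti y x)
      (fun s t x => opS_comm e (hA s) (hA t) (hc s t) x)
    refine ⟨u, hu, ?_, ?_⟩
    · have hspan : Submodule.span ℝ (Set.range u) = ⊤ := by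
        apply hu.linearIndependent.span_eq_top_of_card_eq_finrank
        rw [hfin]
        simp
      intro x hx y z w
      rw [hspan, Submodule.top_orthogonal_eq_bot, Submodule.mem_bot] at hx
      subst hx
      refine Finset.sum_eq_zero fun s _ => ?_
      have h0 : ∀ y, A s 0 y = 0 := fun y => by simpa using (hA s).smul 0 0 y
      simp only [skewCurv, h0]
      ring
    · intro k x y z w
      have key : ∀ s x y, A s (quarter (u (k, false)) (u (k, true)) x)
          (quarter (u (k, false)) (u (k, true)) y) = A s x y := by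
        intro s x y
        obtain ⟨c, h1, h2⟩ := hcu s k
        have a1 : ∀ y, A s (u (k, false)) y = c * inner ℝ (u (k, true)) y := by
          intro y
          rw [← opS_inner e (hA s), h1, inner_smul_left]
          simp
        have a2 : ∀ y, A s (u (k, true)) y = -c * inner ℝ (u (k, false)) y := by
          intro y
          rw [← opS_inner e (hA s), h2, inner_smul_left]
          simp
        have a3 : ∀ y, A s y (u (k, false)) = -(c * inner ℝ (u (k, true)) y) := by
          intro y; rw [(hA s).anti, a1]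
        have a4 : ∀ y, A s y (u (k, true)) = c * inner ℝ (u (k, false)) y := by
          intro y; rw [(hA s).anti, a2]; ring
        have sub1 : ∀ x x' y, A s (x - x') y = A s x y - A s x' y := by
          intro x x' y
          rw [sub_eq_add_neg, (hA s).add, ← neg_one_smul ℝ x', (hA s).smul]; ring
        have sub2 : ∀ x y y', A s x (y - y') = A s x y - A s x y' := by
          intro x y y'
          rw [(hA s).anti, sub1, (hA s).anti y, (hA s).anti y']; ring
        have o := orthonormal_iff_ite.mp hu
        have o1 : (inner ℝ (u (k, false)) (u (k, false)) : ℝ) = 1 := by rw [o]; simp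
        have o2 : (inner ℝ (u (k, true)) (u (k, true)) : ℝ) = 1 := by rw [o]; simp
        have o3 : (inner ℝ (u (k, false)) (u (k, true)) : ℝ) = 0 := by rw [o]; simp
        have o4 : (inner ℝ (u (k, true)) (u (k, false)) : ℝ) = 0 := by rw [o]; simp
        simp only [quarter, sub1, sub2, (hA s).add, SkewForm.add' (hA s), (hA s).smul,
          SkewForm.smul' (hA s), a1, a2, a3, a4, o1, o2, o3, o4]
        ring
      refine Finset.sum_congr rfl fun s _ => ?_
      simp only [skewCurv, key]

end forms

end Pool.Agent.K1H57.HT
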