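import Pool.Agent.K1H57.HT.Planes

/-!
# Positivity of the powers of the element of a torus invariant tensor
-/

set_option autoImplicit false

namespace Pool.Agent.K1H57.HT

open Pool.Agent.Y195.HF Finset

variable {m : ℕ}

/-- the mixed invariant of two planes -/
noncomputable def sP (i j : Fin m) : Zc (I2 m → ℂ) := sE (pP i) (cP i) (xP i) (pP j) (cP j) (xP j)

/-- the mixed metric element of two planes -/
noncomputable def hP (i j : Fin m) : Zc (I2 m → ℂ) := -(gP i * gP j)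

/-- the mixed value of the functional -/
noncomputable def cV (i j : Fin m) (T : Zc (I2 m → ℂ)) : ℝ :=
  LR m ((pP i * cP j + cP i * pP j) * T) / 2

theorem LR_s {i j : Fin m} {T : Zc (I2 m → ℂ)} (hT : Inv T) :
    LR m (sP i j * T) = 6 * cV i j T := by
  have h := isot (i := i) (j := j) hT
  have e : sP i j * T = (3 : ℝ) • ((pP i * cP j + cP i * pP j) * T) -
      (xP i * xP j + (pP i * cP j + cP i * pP j)) * T := by
    rw [Algebra.smul_def, map_ofNat, sP, sE]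
    ring
  rw [e, map_sub, h, map_smul, smul_eq_mul, cV]
  ring

theorem LR_h {i j : Fin m} {T : Zc (I2 m → ℂ)} (hT : Inv T) {n : ℕ} (hc : T ∈ cone m n)
    (hn : 1 + n = m) : 2 * |cV i j T| ≤ LR m (hP i j * T) := by
  have h := isot (i := i) (j := j) hT
  have h1 := mixed_plus (i := i) (j := j) hc hn
  have h2 := mixed_minus (i := i) (j := j) hc hn
  have e1 : (-(gP i * gP j) + xP i * xP j) * T = hP i j * T +
      (xP i * xP j + (pP i * cP j + cP i * pP j)) * T - (pP i * cP j + cP i * pP j) * T := by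
    rw [hP]; ring
  have e2 : (-(gP i * gP j) - xP i * xP j) * T = hP i j * T -
      (xP i * xP j + (pP i * cP j + cP i * pP j)) * T + (pP i * cP j + cP i * pP j) * T := by
    rw [hP]; ring
  rw [e1, map_sub, map_add, h] at h1
  rw [e2, map_add, map_sub, h] at h2
  have : |cV i j T| ≤ LR m (hP i j * T) / 2 := by
    rw [abs_le, cV]
    constructor <;> linarith
  linarith

theorem smul_mul_smul3 (z w : ℝ) (x y T : Zc (I2 m → ℂ)) :
    (z • x) * (w • y) * T = (z * w) • (x * y * T) := by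
  simp only [Algebra.smul_def, map_mul]
  ring

/-- first order matrix -/
theorem psd1 (i j k : Fin m) {T : Zc (I2 m → ℂ)} {n : ℕ} (hc : T ∈ cone m n) (hn : 1 + n = m) :
    Psd (LR m (vP i * T)) (LR m (vP j * T)) (LR m (vP k * T)) (cV j k T) (cV i k T) (cV i j T) := by
  intro z₁ z₂ z₃
  have h := gram (κ := Fin 3) (k := 1) (fun a _ => eP (![i, j, k] a)) (fun a b => cj_sk _ _)
    ![z₁, z₂, z₃] hc hn
  simp only [Fin.prod_univ_one, Fin.sum_univ_three, ff_ff, ff_tt, Matrix.cons_val_zero,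
    Matrix.cons_val_one, Matrix.cons_val_two, Matrix.head_cons, Matrix.tail_cons] at h
  have e : (z₁ • (2 * pP i) + z₂ • (2 * pP j) + z₃ • (2 * pP k)) *
      (z₁ • (2 * cP i) + z₂ • (2 * cP j) + z₃ • (2 * cP k)) * T =
      (4 * z₁ ^ 2) • (vP i * T) + (4 * z₂ ^ 2) • (vP j * T) + (4 * z₃ ^ 2) • (vP k * T) +
      (4 * (z₂ * z₃)) • ((pP j * cP k + cP j * pP k) * T) +
      (4 * (z₁ * z₃)) • ((pP i * cP k + cP i * pP k) * T) +
      (4 * (z₁ * z₂)) • ((pP i * cP j + cP i * pP j) * T) := by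
    simp only [Algebra.smul_def, map_mul, map_pow, map_ofNat, vP]
    ring
  rw [e] at h
  simp only [map_add, map_smul, smul_eq_mul] at h
  simp only [cV] at h ⊢
  linarith

/-- second order matrix -/
theorem psd2 (i j k : Fin m) {T : Zc (I2 m → ℂ)} {n : ℕ} (hc : T ∈ cone m n) (hn : 2 + n = m) :
    Psd (LR m (vP j * vP k * T)) (LR m (vP i * vP k * T)) (LR m (vP i * vP j * T))
      (cV j k (vP i * T)) (cV i k (vP j * T)) (cV i j (vP k * T)) := by
  intro z₁ z₂ z₃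
  have h := gram (κ := Fin 3) (k := 2)
    (fun a b => eP (![![j, k], ![i, k], ![i, j]] a b)) (fun a b => cj_sk _ _)
    ![z₁, z₂, z₃] hc hn
  simp only [Fin.prod_univ_two, Fin.sum_univ_three, ff_ff, ff_tt, Matrix.cons_val_zero,
    Matrix.cons_val_one, Matrix.cons_val_two, Matrix.head_cons, Matrix.tail_cons] at h
  have e : (z₁ • (2 * pP j * (2 * pP k)) + z₂ • (2 * pP i * (2 * pP k)) +
        z₃ • (2 * pP i * (2 * pP j))) *
      (z₁ • (2 * cP j * (2 * cP k)) + z₂ • (2 * cP i * (2 * cP k)) +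
        z₃ • (2 * cP i * (2 * cP j))) * T =
      (16 * z₁ ^ 2) • (vP j * vP k * T) + (16 * z₂ ^ 2) • (vP i * vP k * T) +
      (16 * z₃ ^ 2) • (vP i * vP j * T) +
      (16 * (z₂ * z₃)) • ((pP j * cP k + cP j * pP k) * (vP i * T)) +
      (16 * (z₁ * z₃)) • ((pP i * cP k + cP i * pP k) * (vP j * T)) +
      (16 * (z₁ * z₂)) • ((pP i * cP j + cP i * pP j) * (vP k * T)) := by
    simp only [Algebra.smul_def, map_mul, map_pow, map_ofNat, vP]
    ring
  rw [e] at h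
  simp only [map_add, map_smul, smul_eq_mul] at h
  simp only [cV] at h ⊢
  linarith

/-- real scalars -/
noncomputable def rS (m : ℕ) (r : ℝ) : Zc (I2 m → ℂ) := algebraMap ℝ _ r

theorem LR_rS (r : ℝ) (x : Zc (I2 m → ℂ)) : LR m (rS m r * x) = r * LR m x := by
  rw [rS, ← Algebra.smul_def, map_smul, smul_eq_mul]

/-- the element of a torus invariant tensor with three planes -/
noncomputable def tE (i j k : Fin m) (a₁ a₂ a₃ b₁ b₂ b₃ c₁ c₂ c₃ : ℝ) : Zc (I2 m → ℂ) :=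
  tau (vP i) (vP j) (vP k) (hP j k) (hP i k) (hP i j) (sP j k) (sP i k) (sP i j)
    (rS m a₁) (rS m a₂) (rS m a₃) (rS m b₁) (rS m b₂) (rS m b₃) (rS m c₁) (rS m c₂) (rS m c₃)

theorem tabP (i j k : Fin m) : Tab (vP i) (vP j) (vP k) (hP j k) (hP i k) (hP i j) (sP j k)
    (sP i k) (sP i j) := tab (relP i) (relP j) (relP k)

theorem tau_pos {a₁ a₂ a₃ b₁ b₂ b₃ c₁ c₂ c₃ : ℝ} (h : Cop a₁ a₂ a₃ b₁ b₂ b₃ c₁ c₂ c₃)
    (hb₁ : 0 ≤ b₁) (hb₂ : 0 ≤ b₂) (hb₃ : 0 ≤ b₃) (i j k : Fin m) {T : Zc (I2 m → ℂ)}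
    (hI : Inv T) {N n : ℕ} (hc : T ∈ cone m n) (hn : N + n = m) :
    0 ≤ LR m (tE i j k a₁ a₂ a₃ b₁ b₂ b₃ c₁ c₂ c₃ ^ N * T) := by
  have tb := tabP i j k
  rcases N with _ | _ | _ | _ | N
  · rw [pow_zero, one_mul]
    have : n = m := by omega
    subst this
    exact cone_LR hc
  · have hn' : 1 + n = m := by omega
    have e : tE i j k a₁ a₂ a₃ b₁ b₂ b₃ c₁ c₂ c₃ ^ (0 + 1) * T =
        rS m (2 * a₁) * (vP i * T) + rS m (2 * a₂) * (vP j * T) + rS m (2 * a₃) * (vP k * T) +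
        rS m (2 * b₁) * (hP j k * T) + rS m (2 * b₂) * (hP i k * T) +
        rS m (2 * b₃) * (hP i j * T) + rS m c₁ * (sP j k * T) + rS m c₂ * (sP i k * T) +
        rS m c₃ * (sP i j * T) := by
      simp only [rS, map_mul, map_ofNat, tE, tau]
      ring
    rw [e]
    simp only [map_add, LR_rS, LR_s hI]
    have h1 := h.ord1 (psd1 i j k hc hn') hb₁ hb₂ hb₃ (LR_h (i := j) (j := k) hI hc hn')
      (LR_h (i := i) (j := k) hI hc hn') (LR_h (i := i) (j := j) hI hc hn')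
    linarith
  · have hn' : 2 + n = m := by omega
    have e : tE i j k a₁ a₂ a₃ b₁ b₂ b₃ c₁ c₂ c₃ ^ (0 + 1 + 1) * T =
        rS m (8 * a₂ * a₃ + 16 * b₁ ^ 2 + 12 * c₁ ^ 2) * (vP j * vP k * T) +
        rS m (8 * a₁ * a₃ + 16 * b₂ ^ 2 + 12 * c₂ ^ 2) * (vP i * vP k * T) +
        rS m (8 * a₁ * a₂ + 16 * b₃ ^ 2 + 12 * c₃ ^ 2) * (vP i * vP j * T) +
        rS m (8 * a₁ * b₁ + 16 * b₂ * b₃) * (hP j k * (vP i * T)) +
        rS m (8 * a₂ * b₂ + 16 * b₁ * b₃) * (hP i k * (vP j * T)) +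
        rS m (8 * a₃ * b₃ + 16 * b₁ * b₂) * (hP i j * (vP k * T)) +
        rS m (4 * a₁ * c₁ + 4 * c₂ * c₃) * (sP j k * (vP i * T)) +
        rS m (4 * a₂ * c₂ + 4 * c₁ * c₃) * (sP i k * (vP j * T)) +
        rS m (4 * a₃ * c₃ + 4 * c₁ * c₂) * (sP i j * (vP k * T)) := by
      have h2 := tau_sq tb (rS m a₁) (rS m a₂) (rS m a₃) (rS m b₁) (rS m b₂) (rS m b₃) (rS m c₁)
        (rS m c₂) (rS m c₃)
      rw [show (0 + 1 + 1 : ℕ) = 2 from rfl, tE, h2]
      simp only [rS, map_mul, map_add, map_pow, map_ofNat]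
      ring
    have i1 := (vP_inv i).mul hI
    have i2 := (vP_inv j).mul hI
    have i3 := (vP_inv k).mul hI
    have k1 := cone_mul (vP_cone i) hc
    have k2 := cone_mul (vP_cone j) hc
    have k3 := cone_mul (vP_cone k) hc
    have hn2 : 1 + (1 + n) = m := by omega
    rw [e]
    simp only [map_add, LR_rS, LR_s i1, LR_s i2, LR_s i3]
    have h1 := h.ord2 (psd2 i j k hc hn') hb₁ hb₂ hb₃ (LR_h (i := j) (j := k) i1 k1 hn2)
      (LR_h (i := i) (j := k) i2 k2 hn2) (LR_h (i := i) (j := j) i3 k3 hn2)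
    linarith
  · have h3 := tau_cube tb (rS m a₁) (rS m a₂) (rS m a₃) (rS m b₁) (rS m b₂) (rS m b₃) (rS m c₁)
        (rS m c₂) (rS m c₃)
    have e : tE i j k a₁ a₂ a₃ b₁ b₂ b₃ c₁ c₂ c₃ ^ (0 + 1 + 1 + 1) * T =
        rS m (48 * a₁ * a₂ * a₃ + a₁ * (96 * b₁ ^ 2 + 72 * c₁ ^ 2) +
          a₂ * (96 * b₂ ^ 2 + 72 * c₂ ^ 2) + a₃ * (96 * b₃ ^ 2 + 72 * c₃ ^ 2) +
          384 * b₁ * b₂ * b₃ + 144 * c₁ * c₂ * c₃) * (vP i * vP j * vP k * T) := by
      rw [show (0 + 1 + 1 + 1 : ℕ) = 3 from rfl, tE, h3]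
      simp only [rS, map_mul, map_add, map_pow, map_ofNat]
      ring
    rw [e, LR_rS]
    refine mul_nonneg (h.ord3 hb₁ hb₂ hb₃) (cone_LR ?_)
    have := cone_mul (cone_mul (cone_mul (vP_cone i) (vP_cone j)) (vP_cone k)) hc
    have e3 : 1 + 1 + 1 + n = m := by omega
    rwa [e3] at this
  · have h4 := tau_four tb (rS m a₁) (rS m a₂) (rS m a₃) (rS m b₁) (rS m b₂) (rS m b₃) (rS m c₁)
        (rS m c₂) (rS m c₃)
    have e : tE i j k a₁ a₂ a₃ b₁ b₂ b₃ c₁ c₂ c₃ ^ (N + 1 + 1 + 1 + 1) = 0 := by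
      rw [show N + 1 + 1 + 1 + 1 = 4 + N by omega, pow_add, tE, h4, zero_mul]
    rw [e, zero_mul, map_zero]

end Pool.Agent.K1H57.HT
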