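import Pool.Agent.K1H57.HT.Commute

/-!
# Integrated forms
-/

set_option autoImplicit false

namespace Pool.Agent.K1H57.HT

open Pool.Agent.Y195.HF Pool.Agent.W666.GB Pool.Agent.W669.HD MeasureTheory

variable {m : ℕ}

theorem field_torus {M : Type} [MeasurableSpace M] (μ : Measure M)
    (K : CurvField m M) (δ : M → ℝ) (h : ∀ p, 0 ≤ δ p ∧ PlusTorus (δ p) (K.R p)) :
    0 ≤ (-1) ^ m * ∫ p, K.gb p ∂μ ∧
    (Integrable K.gb μ → Integrable (fun p => roundGB m (δ p)) μ →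
      ∫ p, roundGB m (δ p) ∂μ ≤ (-1) ^ m * ∫ p, K.gb p ∂μ) ∧
    (Integrable K.gb μ → μ {p | 0 < δ p} ≠ 0 → 0 < (-1) ^ m * ∫ p, K.gb p ∂μ) := by
  have h1 : ∀ p, roundGB m (δ p) ≤ (-1) ^ m * K.gb p := fun p =>
    torus_bound (K.e p) (K.curv p) (h p).1 (h p).2
  have h0 : ∀ p, 0 ≤ (-1) ^ m * K.gb p := fun p => (roundGB_nonneg (h p).1).trans (h1 p)
  rw [← integral_const_mul]
  refine ⟨integral_nonneg h0, fun hi hr => ?_, fun hi hμ => ?_⟩
  · exact integral_mono hr (hi.const_mul _) h1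
  · rw [integral_pos_iff_support_of_nonneg h0 (hi.const_mul _)]
    refine lt_of_lt_of_le (pos_iff_ne_zero.mpr hμ) (measure_mono fun p hp => ?_)
    have h2 := roundGB_pos (m := m) (show 0 < δ p from hp)
    exact (h2.trans_le (h1 p)).ne'

end Pool.Agent.K1H57.HT
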