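import Pool.Agent.K1H57.HT.Vec
import Pool.Agent.Y195.HF.Posi

/-!
# Superadditivity of the Gauss–Bonnet–Chern integrand
-/

set_option autoImplicit false

namespace Pool.Agent.K1H57.HT

open Pool.Agent.Y195.HF Pool.Agent.W666.GB Pool.Agent.W669.HD Finset

variable {m : ℕ}

/-- the algebraic inequality -/
theorem gm_super {P C : T4 m} (hm : 1 ≤ m) (hP : Adm P)
    (h : ∀ (N n : ℕ) (T : Zc (I2 m → ℂ)), Inv T → T ∈ cone m n → N + n = m →
      0 ≤ LR m (eL (cx C) ^ N * T)) :
    0 ≤ gm (fun _ : Fin m => C) ∧ gm (fun _ : Fin m => P) + gm (fun _ : Fin m => C) ≤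
      gm (fun _ : Fin m => (fun i j k l => P i j k l + C i j k l : T4 m)) := by
  have h0 : 0 ≤ gm (fun _ : Fin m => C) := by
    rw [gm_LR]
    have := h m 0 1 Inv.one cone_one (by omega)
    rwa [mul_one] at this
  refine ⟨h0, ?_⟩
  have hsum : eL (cx (fun i j k l => P i j k l + C i j k l : T4 m)) = eL (cx P) + eL (cx C) := by
    rw [← eL_add (cx P)]
    congr 1
    funext i j k l
    simp only [cx]
    push_cast
    rfl
  rw [gm_LR, gm_LR, gm_LR, hsum, add_pow, map_sum]
  obtain ⟨k, rfl⟩ : ∃ k, m = k + 1 := ⟨m - 1, by omega⟩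
  rw [Finset.sum_range_succ, Finset.sum_range_succ']
  have e1 : eL (cx P) ^ (k + 1) * eL (cx C) ^ (k + 1 - (k + 1)) *
      (((k + 1).choose (k + 1) : ℕ) : Zc (I2 (k + 1) → ℂ)) = eL (cx P) ^ (k + 1) := by
    rw [Nat.sub_self, pow_zero, Nat.choose_self, Nat.cast_one, mul_one, mul_one]
  have e2 : eL (cx P) ^ 0 * eL (cx C) ^ (k + 1 - 0) *
      (((k + 1).choose 0 : ℕ) : Zc (I2 (k + 1) → ℂ)) = eL (cx C) ^ (k + 1) := by
    rw [Nat.sub_zero, pow_zero, Nat.choose_zero_right, Nat.cast_one, mul_one, one_mul]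
  rw [e1, e2]
  have h2 : 0 ≤ ∑ j ∈ Finset.range k, LR (k + 1) (eL (cx P) ^ (j + 1) *
      eL (cx C) ^ (k + 1 - (j + 1)) * (((k + 1).choose (j + 1) : ℕ) : Zc (I2 (k + 1) → ℂ))) := by
    refine Finset.sum_nonneg fun j hj => ?_
    rw [Finset.mem_range] at hj
    have h3 := h (k + 1 - (j + 1)) (j + 1) (eL (cx P) ^ (j + 1)) (hP.inv.pow _)
      (cone_pow hP.mem _) (by omega)
    have e3 : eL (cx P) ^ (j + 1) * eL (cx C) ^ (k + 1 - (j + 1)) *
        (((k + 1).choose (j + 1) : ℕ) : Zc (I2 (k + 1) → ℂ)) =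
        (((k + 1).choose (j + 1) : ℕ) : ℝ) •
          (eL (cx C) ^ (k + 1 - (j + 1)) * eL (cx P) ^ (j + 1)) := by
      rw [Algebra.smul_def, map_natCast]
      ring
    rw [e3, map_smul, smul_eq_mul]
    positivity
  linarith

section final

variable {V : Type} [NormedAddCommGroup V] [InnerProductSpace ℝ V]

theorem gbc_gm (e : OrthonormalBasis (Fin m × Bool) ℝ V) (R : V → V → V → V → ℝ) :
    gbc e R = 1 / ((8 * Real.pi) ^ m * m.factorial) * gm (fun _ : Fin m => cp e R) := by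
  rw [← gbc_negT e R, gbc_eq]
  congr 2
  funext _
  unfold cp negT
  simp only [neg_neg]

theorem one_le_of_torus (e : OrthonormalBasis (Fin m × Bool) ℝ V) {T : V → V → V → V → ℝ}
    (h : TorusInv T) : 1 ≤ m := by
  obtain ⟨u, hu, -, -⟩ := h
  obtain ⟨ι, -, -, -⟩ := adapted e u hu
  have := (ι 0).isLt
  omega

/-- **Superadditivity.** -/
theorem super (e : OrthonormalBasis (Fin m × Bool) ℝ V) {P T : V → V → V → V → ℝ}
    (hP : AlgCurv P) (hPn : OpNonneg P) (hT : AlgCurv T) (hK : ∀ x y, 0 ≤ T x y x y)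
    (hI : TorusInv T) : 0 ≤ gbc e T ∧ gbc e P + gbc e T ≤ gbc e (addT P T) := by
  have hm := one_le_of_torus e hI
  obtain ⟨u, hu, hL, hq⟩ := hI
  obtain ⟨ι, e', hι, he⟩ := adapted e u hu
  rw [Pool.Agent.W688.HD.bas m V e e' _ hP, Pool.Agent.W688.HD.bas m V e e' _ hT,
    Pool.Agent.W688.HD.bas m V e e' _ (add_curv hP hT)]
  have ht := tinv hT hL hq he
  have hc := cop_of hT hK hι ht
  have hs : ∀ a b c d : Fin m × Bool, (∀ k, a.1 ≠ ι k) → cp e' T a b c d = 0 :=
    fun a b c d ha => supp hL he ha _ _ _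
  have hb : ∀ i j : Fin m, 0 ≤ cp e' T (i, false) (j, false) (i, false) (j, false) :=
    fun i j => hK _ _
  have key : ∀ (N n : ℕ) (S : Zc (I2 m → ℂ)), Inv S → S ∈ cone m n → N + n = m →
      0 ≤ LR m (eL (cx (cp e' T)) ^ N * S) := by
    intro N n S hS hSc hn
    have h1 := tau_pos hc (hb _ _) (hb _ _) (hb _ _) (ι 0) (ι 1) (ι 2) hS hSc hn
    rw [eL_three ht ι hι hs, mul_pow, mul_assoc]
    have e1 : (2 : Zc (I2 m → ℂ)) ^ N = rS m (2 ^ N) := by
      rw [rS, map_pow, map_ofNat]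
    rw [e1, LR_rS]
    positivity
  obtain ⟨h1, h2⟩ := gm_super hm (adm_cp e' hP hPn) key
  rw [gbc_gm, gbc_gm, gbc_gm]
  have hπ := Real.pi_pos
  have hcc : 0 < 1 / ((8 * Real.pi) ^ m * (m.factorial : ℝ)) := by positivity
  refine ⟨mul_nonneg hcc.le h1, ?_⟩
  rw [← mul_add]
  exact mul_le_mul_of_nonneg_left h2 hcc.le

theorem unit_op (e : OrthonormalBasis (Fin m × Bool) ℝ V) (n : ℕ) (x y : Fin n → V) :
    0 ≤ ∑ a, ∑ b, unitT (x a) (y a) (x b) (y b) := by
  have hin : ∀ v w : V, (inner ℝ v w : ℝ) = ∑ i, inner ℝ v (e i) * inner ℝ w (e i) := by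
    intro v w
    rw [← e.sum_inner_mul_inner v w]
    refine Finset.sum_congr rfl fun i _ => ?_
    rw [real_inner_comm w]
  set M : Fin m × Bool → Fin m × Bool → ℝ := fun i j =>
    ∑ a, inner ℝ (x a) (e i) * inner ℝ (y a) (e j) with hM
  have h1 : ∑ a, ∑ b, unitT (x a) (y a) (x b) (y b) = ∑ i, ∑ j, (M i j * M i j - M i j * M j i) := by
    have h2 : ∀ a b, unitT (x a) (y a) (x b) (y b) = ∑ i, ∑ j,
        ((inner ℝ (x a) (e i) * inner ℝ (y a) (e j)) * (inner ℝ (x b) (e i) * inner ℝ (y b) (e j)) -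
        (inner ℝ (x a) (e i) * inner ℝ (y a) (e j)) *
          (inner ℝ (x b) (e j) * inner ℝ (y b) (e i))) := by
      intro a b
      rw [unitT, hin (x a) (x b), hin (y a) (y b), hin (x a) (y b), hin (y a) (x b),
        Finset.sum_mul_sum, Finset.sum_mul_sum, ← Finset.sum_sub_distrib]
      refine Finset.sum_congr rfl fun i _ => ?_
      rw [← Finset.sum_sub_distrib]
      refine Finset.sum_congr rfl fun j _ => ?_
      ring
    simp only [h2]
    have h3 : ∀ f : Fin n → Fin n → Fin m × Bool → Fin m × Bool → ℝ,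
        ∑ a, ∑ b, ∑ i, ∑ j, f a b i j = ∑ i, ∑ j, ∑ a, ∑ b, f a b i j := by
      intro f
      calc ∑ a, ∑ b, ∑ i, ∑ j, f a b i j = ∑ a, ∑ i, ∑ b, ∑ j, f a b i j :=
            Finset.sum_congr rfl fun a _ => Finset.sum_comm
        _ = ∑ i, ∑ a, ∑ b, ∑ j, f a b i j := Finset.sum_comm
        _ = ∑ i, ∑ a, ∑ j, ∑ b, f a b i j := Finset.sum_congr rfl fun i _ =>
            Finset.sum_congr rfl fun a _ => Finset.sum_comm
        _ = ∑ i, ∑ j, ∑ a, ∑ b, f a b i j := Finset.sum_congr rfl fun i _ => Finset.sum_comm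
    rw [h3]
    refine Finset.sum_congr rfl fun i _ => Finset.sum_congr rfl fun j _ => ?_
    simp only [Finset.sum_sub_distrib]
    rw [hM, ← Finset.sum_mul_sum, ← Finset.sum_mul_sum]
  have h4 : ∑ i, ∑ j, (M i j * M i j - M i j * M j i) = ∑ i, ∑ j, (M i j - M j i) ^ 2 / 2 := by
    have h5 : ∑ i, ∑ j, (M i j * M i j - M i j * M j i) =
        ∑ i, ∑ j, (M j i * M j i - M j i * M i j) := Finset.sum_comm
    have h6 : ∑ i, ∑ j, (M i j - M j i) ^ 2 / 2 =
        (∑ i, ∑ j, (M i j * M i j - M i j * M j i) +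
          ∑ i, ∑ j, (M j i * M j i - M j i * M i j)) / 2 := by
      simp only [← Finset.sum_add_distrib, Finset.sum_div]
      refine Finset.sum_congr rfl fun i _ => Finset.sum_congr rfl fun j _ => ?_
      ring
    rw [h6, ← h5]
    ring
  rw [h1, h4]
  exact Finset.sum_nonneg fun i _ => Finset.sum_nonneg fun j _ => by positivity

/-- The hypothesis: `-R = P + T`, where the curvature operator of the algebraic curvature tensor
`P` is at least `δ`, and `T` is a torus invariant algebraic curvature tensor of nonnegative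
sectional curvature. -/
def PlusTorus (δ : ℝ) (R : V → V → V → V → ℝ) : Prop :=
  ∃ T : V → V → V → V → ℝ, AlgCurv T ∧ (∀ x y, 0 ≤ T x y x y) ∧ TorusInv T ∧
    OpNonneg (negT (addT (addT R fun x y z w => δ * unitT x y z w) T))

theorem op_bound (e : OrthonormalBasis (Fin m × Bool) ℝ V) {P : V → V → V → V → ℝ}
    (hP : AlgCurv P) {δ : ℝ} (hδ : 0 ≤ δ)
    (h : OpNonneg (addT P fun x y z w => -δ * unitT x y z w)) : roundGB m δ ≤ gbc e P := by
  rw [← gbc_negT e P]
  refine two_skew e (neg_curv hP) hδ ⟨fun _ _ => 0, fun _ _ => 0, zero_skew, zero_skew, ?_⟩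
  have h1 : negT (addT (addT (addT (negT P) fun x y z w => δ * unitT x y z w)
      (skewCurv fun _ _ : V => (0 : ℝ))) (skewCurv fun _ _ : V => (0 : ℝ))) =
      addT P fun x y z w => -δ * unitT x y z w := by
    funext x y z w
    simp only [negT, addT, skewCurv]
    ring
  rw [h1]
  exact h

theorem torus_bound (e : OrthonormalBasis (Fin m × Bool) ℝ V) {R : V → V → V → V → ℝ}
    (hR : AlgCurv R) {δ : ℝ} (hδ : 0 ≤ δ) (h : PlusTorus δ R) :
    roundGB m δ ≤ (-1) ^ m * gbc e R := by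
  obtain ⟨T, hT, hK, hI, hn⟩ := h
  have hP : AlgCurv (negT (addT R T)) := neg_curv (add_curv hR hT)
  have e1 : addT (negT (addT R T)) (fun x y z w => -δ * unitT x y z w) =
      negT (addT (addT R fun x y z w => δ * unitT x y z w) T) := by
    funext x y z w
    simp only [negT, addT]
    ring
  have h1 := op_bound e hP hδ (by rw [e1]; exact hn)
  have hPn : OpNonneg (negT (addT R T)) := by
    intro n x y
    have h2 := hn n x y
    have h3 : 0 ≤ ∑ a, ∑ b, δ * unitT (x a) (y a) (x b) (y b) := by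
      simp only [← Finset.mul_sum]
      exact mul_nonneg hδ (unit_op e n x y)
    have h4 : ∑ a, ∑ b, negT (addT R T) (x a) (y a) (x b) (y b) =
        ∑ a, ∑ b, negT (addT (addT R fun x y z w => δ * unitT x y z w) T) (x a) (y a) (x b) (y b) +
          ∑ a, ∑ b, δ * unitT (x a) (y a) (x b) (y b) := by
      simp only [← Finset.sum_add_distrib]
      refine Finset.sum_congr rfl fun a _ => Finset.sum_congr rfl fun b _ => ?_
      simp only [negT, addT]
      ring
    rw [h4]
    linarith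
  obtain ⟨h5, h6⟩ := super e hP hPn hT hK hI
  have e2 : addT (negT (addT R T)) T = negT R := by
    funext x y z w
    simp only [negT, addT]
    ring
  rw [e2] at h6
  have h7 : gbc e (negT R) = (-1) ^ m * gbc e R := by
    have h8 := gbc_negT e (negT R)
    have h9 : negT (negT R) = R := by
      funext x y z w
      simp [negT]
    rw [h9] at h8
    exact h8.symm
  rw [← h7]
  linarith

end final

end Pool.Agent.K1H57.HT
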