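import Pool.Agent.K1H57.HT.TauPos

/-!
# The normal form of torus invariant tensors
-/

set_option autoImplicit false

namespace Pool.Agent.K1H57.HT

open Pool.Agent.Y195.HF Pool.Agent.W666.GB Pool.Agent.W669.HD Finset

variable {m : ℕ}

theorem sum_two {N : Type} [AddCommMonoid N] (f : Fin m × Bool → Fin m × Bool → N) :
    ∑ a, ∑ b, f a b = ∑ i, ∑ j, ∑ s, ∑ t, f (i, s) (j, t) := by
  rw [Fintype.sum_prod_type]
  refine Finset.sum_congr rfl fun i _ => ?_
  simp only [Fintype.sum_prod_type]
  rw [Finset.sum_comm]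

theorem sum_eight {N : Type} [AddCommMonoid N]
    (f : Fin m × Bool → Fin m × Bool → Fin m × Bool → Fin m × Bool → N) :
    ∑ a, ∑ b, ∑ c, ∑ d, f a b c d =
      ∑ i, ∑ j, ∑ k, ∑ l, ∑ s, ∑ t, ∑ r, ∑ q, f (i, s) (j, t) (k, r) (l, q) := by
  rw [sum_two (fun a b => ∑ c, ∑ d, f a b c d)]
  refine Finset.sum_congr rfl fun i _ => Finset.sum_congr rfl fun j _ => ?_
  have h : ∀ s t, ∑ c, ∑ d, f (i, s) (j, t) c d =
      ∑ k, ∑ l, ∑ r, ∑ q, f (i, s) (j, t) (k, r) (l, q) := fun s t => sum_two _
  simp only [h]
  calc ∑ s : Bool, ∑ t : Bool, ∑ k, ∑ l, ∑ r, ∑ q, f (i, s) (j, t) (k, r) (l, q)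
      = ∑ s : Bool, ∑ k, ∑ l, ∑ t : Bool, ∑ r, ∑ q, f (i, s) (j, t) (k, r) (l, q) := by
        refine Finset.sum_congr rfl fun s _ => ?_
        rw [Finset.sum_comm]
        refine Finset.sum_congr rfl fun k _ => ?_
        rw [Finset.sum_comm]
    _ = ∑ k, ∑ l, ∑ s : Bool, ∑ t : Bool, ∑ r, ∑ q, f (i, s) (j, t) (k, r) (l, q) := by
        rw [Finset.sum_comm]
        refine Finset.sum_congr rfl fun k _ => ?_
        rw [Finset.sum_comm]

/-- action of the quarter turn of the plane `n` on the indices -/
def fl (n : Fin m) (a : Fin m × Bool) : Fin m × Bool := if a.1 = n then (a.1, !a.2) else a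

/-- sign of the quarter turn of the plane `n` -/
def sg (n : Fin m) (a : Fin m × Bool) : ℝ := if a.1 = n ∧ a.2 = true then -1 else 1

/-- components of a curvature tensor which is invariant under the quarter turns -/
structure TInv (C : T4 m) : Prop where
  anti : ∀ a b c d, C b a c d = - C a b c d
  pair : ∀ a b c d, C c d a b = C a b c d
  bia : ∀ a b c d, C a b c d + C b c a d + C c a b d = 0
  inv : ∀ n a b c d, sg n a * sg n b * sg n c * sg n d * C (fl n a) (fl n b) (fl n c) (fl n d) =
    C a b c d

namespace TInv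

variable {C : T4 m} (h : TInv C)
include h

theorem anti' (a b c d : Fin m × Bool) : C a b d c = - C a b c d := by
  rw [← h.pair, h.anti, h.pair]

theorem parity (n : Fin m) (a b c d : Fin m × Bool) :
    (if a.1 = n then (-1 : ℝ) else 1) * (if b.1 = n then (-1 : ℝ) else 1) *
      (if c.1 = n then (-1 : ℝ) else 1) * (if d.1 = n then (-1 : ℝ) else 1) * C a b c d =
      C a b c d := by
  have h1 := h.inv n a b c d
  have h2 := h.inv n (fl n a) (fl n b) (fl n c) (fl n d)
  have h3 : ∀ a : Fin m × Bool, fl n (fl n a) = a := by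
    rintro ⟨i, s⟩
    by_cases hi : i = n
    · subst hi; simp [fl]
    · simp [fl, hi]
  have h4 : ∀ a : Fin m × Bool, sg n a * sg n (fl n a) = if a.1 = n then (-1 : ℝ) else 1 := by
    rintro ⟨i, s⟩
    by_cases hi : i = n
    · subst hi; cases s <;> simp [fl, sg]
    · simp [fl, sg, hi]
  rw [h3, h3, h3, h3] at h2
  rw [← h4 a, ← h4 b, ← h4 c, ← h4 d]
  rw [← h2] at h1
  linear_combination h1

theorem zero_of_odd (n : Fin m) {a b c d : Fin m × Bool}
    (ho : (if a.1 = n then (-1 : ℝ) else 1) * (if b.1 = n then (-1 : ℝ) else 1) *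
      (if c.1 = n then (-1 : ℝ) else 1) * (if d.1 = n then (-1 : ℝ) else 1) = -1) :
    C a b c d = 0 := by
  have h1 := h.parity n a b c d
  rw [ho] at h1
  linarith

theorem z1 {i k l : Fin m} (hkl : k ≠ l) (s t r q : Bool) :
    C (i, s) (i, t) (k, r) (l, q) = 0 := by
  apply h.zero_of_odd k
  by_cases hik : i = k
  · simp [hik, hkl.symm]
  · simp [hik, hkl.symm]

theorem z2 {i j k l : Fin m} (hij : i ≠ j) (h1 : ¬ (k = i ∧ l = j)) (h2 : ¬ (k = j ∧ l = i))
    (s t r q : Bool) : C (i, s) (j, t) (k, r) (l, q) = 0 := by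
  by_cases hk : k = i
  · subst hk
    have hl : l ≠ j := fun hl => h1 ⟨rfl, hl⟩
    apply h.zero_of_odd j
    simp [hij, hl]
  · by_cases hl : l = i
    · subst hl
      have hk2 : k ≠ j := fun hk => h2 ⟨hk, rfl⟩
      apply h.zero_of_odd j
      simp [hij, hk2]
    · apply h.zero_of_odd i
      simp [hij.symm, hk, hl]

/-- values on the pairs of planes -/
theorem vij {i j : Fin m} (hij : i ≠ j) :
    (∀ s t, C (i, s) (j, t) (i, s) (j, t) = C (i, false) (j, false) (i, false) (j, false)) ∧
    (∀ s t, C (i, s) (j, t) (i, s) (j, !t) = 0) ∧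
    (∀ s t, C (i, s) (j, t) (i, !s) (j, t) = 0) ∧
    C (i, false) (j, false) (i, true) (j, true) = C (i, false) (i, true) (j, false) (j, true) / 2 ∧
    C (i, true) (j, true) (i, false) (j, false) = C (i, false) (i, true) (j, false) (j, true) / 2 ∧
    C (i, false) (j, true) (i, true) (j, false) =
      -(C (i, false) (i, true) (j, false) (j, true) / 2) ∧
    C (i, true) (j, false) (i, false) (j, true) =
      -(C (i, false) (i, true) (j, false) (j, true) / 2) := by
  have hi : ∀ s t r q, (if s = true then (-1 : ℝ) else 1) * (if r = true then (-1 : ℝ) else 1) *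
      C (i, !s) (j, t) (i, !r) (j, q) = C (i, s) (j, t) (i, r) (j, q) := by
    intro s t r q
    have := h.inv i (i, s) (j, t) (i, r) (j, q)
    simpa [fl, sg, hij.symm] using this
  have hj : ∀ s t r q, (if t = true then (-1 : ℝ) else 1) * (if q = true then (-1 : ℝ) else 1) *
      C (i, s) (j, !t) (i, r) (j, !q) = C (i, s) (j, t) (i, r) (j, q) := by
    intro s t r q
    have := h.inv j (i, s) (j, t) (i, r) (j, q)
    simpa [fl, sg, hij] using this
  have b := h.bia (i, false) (i, true) (j, false) (j, true)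
  have e1 := hi false false true true
  have e2 := hj false false true true
  have e3 := h.pair (i, false) (j, false) (i, true) (j, true)
  have e4 := h.anti (i, false) (j, false) (i, true) (j, true)
  simp only [Bool.not_false, Bool.not_true, if_true, Bool.false_eq_true, if_false] at e1 e2
  refine ⟨?_, ?_, ?_, ?_, ?_, ?_, ?_⟩
  · intro s t
    have a1 := hi false false false false
    have a2 := hj false false false false
    have a3 := hj true false true false
    simp only [Bool.not_false, Bool.false_eq_true, if_false] at a1 a2 a3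
    cases s <;> cases t <;> linarith
  · intro s t
    have a1 := hj s t s (!t)
    have a2 := h.pair (i, s) (j, t) (i, s) (j, !t)
    cases t <;> simp at a1 a2 ⊢ <;> linarith
  · intro s t
    have a1 := hi s t (!s) t
    have a2 := h.pair (i, s) (j, t) (i, !s) (j, t)
    cases s <;> simp at a1 a2 ⊢ <;> linarith
  all_goals linarith

theorem vii {i k : Fin m} (s t r q : Bool) : C (i, s) (i, t) (k, r) (k, q) =
    (if s = t then 0 else if s = true then -1 else 1) *
      (if r = q then 0 else if r = true then -1 else 1) *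
      C (i, false) (i, true) (k, false) (k, true) := by
  have a1 := h.anti (i, false) (i, false) (k, r) (k, q)
  have a2 := h.anti (i, true) (i, true) (k, r) (k, q)
  have a3 := h.anti (i, false) (i, true) (k, r) (k, q)
  have a4 := h.anti (i, false) (i, true) (k, false) (k, true)
  have b1 := h.anti' (i, s) (i, t) (k, false) (k, false)
  have b2 := h.anti' (i, s) (i, t) (k, true) (k, true)
  have b3 := h.anti' (i, s) (i, t) (k, false) (k, true)
  cases s <;> cases t <;> cases r <;> cases q <;> simp at a1 a2 a3 b1 b2 b3 ⊢ <;> linarith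

end TInv

/-- the part of the element which belongs to four planes -/
noncomputable def Fq (C : T4 m) (i j k l : Fin m) : Zc (I2 m → ℂ) :=
  ∑ s, ∑ t, ∑ r, ∑ q, (C (i, s) (j, t) (k, r) (l, q) : ℂ) •
    (bv (th m false (i, s)) (th m false (j, t)) * bv (th m true (k, r)) (th m true (l, q)))

theorem eL_Fq (C : T4 m) : eL (cx C) = ∑ i, ∑ j, ∑ k, ∑ l, Fq C i j k l := by
  rw [eL, el, sum_eight]
  rfl

theorem cS (r : ℝ) (x : Zc (I2 m → ℂ)) : (r : ℂ) • x = rS m r * x := by
  rw [Complex.coe_smul, Algebra.smul_def, rS]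

section
variable {C : T4 m} (h : TInv C)
include h

theorem Fq_iikk (i k : Fin m) : Fq C i i k k =
    4 * (rS m (C (i, false) (i, true) (k, false) (k, true)) * (pP i * cP k)) := by
  have hv := fun s t r q => h.vii (i := i) (k := k) s t r q
  unfold Fq
  generalize C (i, false) (i, true) (k, false) (k, true) = D at hv ⊢
  simp only [hv, Fintype.sum_bool, cS]
  simp only [rS, if_true, Bool.true_eq_false, Bool.false_eq_true, if_false, zero_mul, mul_zero,
    map_zero, add_zero, zero_add, one_mul, mul_one, neg_mul, map_neg, neg_neg, mul_neg]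
  unfold pP cP
  rw [bv_swap (th m false (i, false)) (th m false (i, true)),
    bv_swap (th m true (k, false)) (th m true (k, true))]
  ring

theorem Fq_ijij {i j : Fin m} (hij : i ≠ j) : 2 * Fq C i j i j =
    2 * (rS m (C (i, false) (j, false) (i, false) (j, false)) * hP i j) -
      rS m (C (i, false) (i, true) (j, false) (j, true)) * (xP i * xP j) := by
  obtain ⟨h1, h2, h3, h4, h5, h6, h7⟩ := h.vij hij
  have k1 : ∀ s t r q, bv (th m false (i, s)) (th m false (j, t)) *
      bv (th m true (i, r)) (th m true (j, q)) =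
      -(bv (th m false (i, s)) (th m true (i, r)) * bv (th m false (j, t)) (th m true (j, q))) :=
    fun s t r q => bv_exch _ _ _ _
  have hh : rS m (C (i, false) (i, true) (j, false) (j, true)) =
      2 * rS m (C (i, false) (i, true) (j, false) (j, true) / 2) := by
    rw [rS, rS, ← map_ofNat (algebraMap ℝ (Zc (I2 m → ℂ))) 2, ← map_mul]
    congr 1
    ring
  have e1 := h2 false false
  have e2 := h2 false true
  have e3 := h2 true false
  have e4 := h2 true true
  have f1 := h3 false false
  have f2 := h3 false true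
  have f3 := h3 true false
  have f4 := h3 true true
  simp only [Bool.not_false, Bool.not_true] at e1 e2 e3 e4 f1 f2 f3 f4
  unfold Fq
  simp only [Fintype.sum_bool, cS]
  rw [h1 true true, h1 true false, h1 false true, e1, e2, e3, e4, f1, f2, f3, f4, h4, h5, h6, h7]
  simp only [k1]
  rw [hh]
  simp only [rS, map_zero, map_neg]
  unfold hP gP xP
  ring

theorem Fq_ijji (i j : Fin m) : Fq C i j j i = Fq C i j i j := by
  unfold Fq
  refine Finset.sum_congr rfl fun s _ => Finset.sum_congr rfl fun t _ => ?_
  rw [Finset.sum_comm]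
  refine Finset.sum_congr rfl fun r _ => Finset.sum_congr rfl fun q _ => ?_
  rw [h.anti' (i, s) (j, t) (i, r) (j, q), bv_swap (th m true (i, r)) (th m true (j, q))]
  push_cast
  rw [neg_smul, mul_neg, smul_neg, neg_neg]

theorem Fq_sum : eL (cx C) = ∑ i, ∑ j,
    (4 * (rS m (C (i, false) (i, true) (j, false) (j, true)) * (pP i * cP j)) +
      if i = j then 0 else
        (2 * (rS m (C (i, false) (j, false) (i, false) (j, false)) * hP i j) -
          rS m (C (i, false) (i, true) (j, false) (j, true)) * (xP i * xP j))) := by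
  rw [eL_Fq]
  have hz : ∀ i j k l, (∀ s t r q, C (i, s) (j, t) (k, r) (l, q) = 0) → Fq C i j k l = 0 := by
    intro i j k l h0
    unfold Fq
    simp only [h0, Complex.ofReal_zero, zero_smul, Finset.sum_const_zero]
  have h1 : ∀ i j, ∑ k, ∑ l, Fq C i j k l = (if i = j then ∑ k, Fq C i i k k else 0) +
      (if i = j then 0 else
        (2 * (rS m (C (i, false) (j, false) (i, false) (j, false)) * hP i j) -
          rS m (C (i, false) (i, true) (j, false) (j, true)) * (xP i * xP j))) := by
    intro i j
    by_cases hij : i = j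
    · subst hij
      rw [if_pos rfl, if_pos rfl, add_zero]
      refine Finset.sum_congr rfl fun k _ => ?_
      exact Finset.sum_eq_single k (fun l _ hl => hz _ _ _ _ (h.z1 hl.symm))
        (fun h' => absurd (Finset.mem_univ _) h')
    · rw [if_neg hij, if_neg hij, zero_add, ← Fq_ijij h hij, two_mul]
      nth_rewrite 2 [← Fq_ijji h i j]
      have e1 : ∑ l, Fq C i j i l = Fq C i j i j :=
        Finset.sum_eq_single j (fun l _ hl => hz _ _ _ _
          (h.z2 hij (fun hh => hl hh.2) (fun hh => hij hh.1)))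
          (fun h' => absurd (Finset.mem_univ _) h')
      have e2 : ∑ l, Fq C i j j l = Fq C i j j i :=
        Finset.sum_eq_single i (fun l _ hl => hz _ _ _ _
          (h.z2 hij (fun hh => hij hh.1.symm) (fun hh => hl hh.2)))
          (fun h' => absurd (Finset.mem_univ _) h')
      rw [← e1, ← e2]
      refine Finset.sum_eq_add i j hij ?_ (fun h' => absurd (Finset.mem_univ _) h')
        (fun h' => absurd (Finset.mem_univ _) h')
      intro k _ hk
      exact Finset.sum_eq_zero fun l _ => hz _ _ _ _
        (h.z2 hij (fun hh => hk.1 hh.1) (fun hh => hk.2 hh.1))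
  simp only [h1, Finset.sum_add_distrib]
  congr 1
  refine Finset.sum_congr rfl fun i _ => ?_
  rw [Finset.sum_ite_eq, if_pos (Finset.mem_univ _)]
  exact Finset.sum_congr rfl fun k _ => Fq_iikk h i k

/-- **Normal form** with three planes. -/
theorem eL_three (ι : Fin 3 → Fin m) (hι : Function.Injective ι)
    (hs : ∀ a b c d, (∀ k, a.1 ≠ ι k) → C a b c d = 0) :
    eL (cx C) = 2 * tE (ι 0) (ι 1) (ι 2)
      (C (ι 0, false) (ι 0, true) (ι 0, false) (ι 0, true))
      (C (ι 1, false) (ι 1, true) (ι 1, false) (ι 1, true))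
      (C (ι 2, false) (ι 2, true) (ι 2, false) (ι 2, true))
      (C (ι 1, false) (ι 2, false) (ι 1, false) (ι 2, false))
      (C (ι 0, false) (ι 2, false) (ι 0, false) (ι 2, false))
      (C (ι 0, false) (ι 1, false) (ι 0, false) (ι 1, false))
      (C (ι 1, false) (ι 1, true) (ι 2, false) (ι 2, true))
      (C (ι 0, false) (ι 0, true) (ι 2, false) (ι 2, true))
      (C (ι 0, false) (ι 0, true) (ι 1, false) (ι 1, true)) := by
  rw [Fq_sum h]
  have hs2 : ∀ a b c d, (∀ k, c.1 ≠ ι k) → C a b c d = 0 := fun a b c d hc => by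
    rw [← h.pair]; exact hs c d a b hc
  have hs3 : ∀ a b c d, (∀ k, b.1 ≠ ι k) → C a b c d = 0 := fun a b c d hc => by
    rw [h.anti, hs b a c d hc, neg_zero]
  have r1 : ∀ f : Fin m → Zc (I2 m → ℂ), (∀ i, (∀ k, i ≠ ι k) → f i = 0) →
      ∑ i, f i = ∑ k, f (ι k) := by
    intro f hf
    symm
    refine Fintype.sum_of_injective ι hι _ _ ?_ fun _ => rfl
    intro i hi
    exact hf i fun k hk => hi ⟨k, hk.symm⟩
  have h0 : rS m 0 = 0 := map_zero _
  rw [r1 _ (fun i hi => by
    refine Finset.sum_eq_zero fun j _ => ?_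
    rw [hs _ _ _ _ hi, hs _ _ _ _ hi, h0]
    simp)]
  have r2 : ∀ a : Fin 3, ∑ j,
      (4 * (rS m (C (ι a, false) (ι a, true) (j, false) (j, true)) * (pP (ι a) * cP j)) +
      if ι a = j then 0 else
        (2 * (rS m (C (ι a, false) (j, false) (ι a, false) (j, false)) * hP (ι a) j) -
          rS m (C (ι a, false) (ι a, true) (j, false) (j, true)) * (xP (ι a) * xP j))) =
      ∑ b : Fin 3, (4 * (rS m (C (ι a, false) (ι a, true) (ι b, false) (ι b, true)) *
        (pP (ι a) * cP (ι b))) +
      if a = b then 0 else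
        (2 * (rS m (C (ι a, false) (ι b, false) (ι a, false) (ι b, false)) * hP (ι a) (ι b)) -
          rS m (C (ι a, false) (ι a, true) (ι b, false) (ι b, true)) *
            (xP (ι a) * xP (ι b)))) := by
    intro a
    rw [r1 _ (fun j hj => by
      rw [hs2 _ _ _ _ hj, hs3 _ _ _ _ hj, h0]
      simp)]
    refine Finset.sum_congr rfl fun b _ => ?_
    congr 1
    by_cases hab : a = b
    · rw [if_pos hab, if_pos (congrArg ι hab)]
    · rw [if_neg hab, if_neg fun hh => hab (hι hh)]
  rw [Finset.sum_congr rfl fun a _ => r2 a]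
  have q : ∀ i j, C (i, false) (j, false) (i, false) (j, false) =
      C (j, false) (i, false) (j, false) (i, false) := by
    intro i j
    rw [h.anti, h.anti', neg_neg]
  have q' : ∀ i j, C (i, false) (i, true) (j, false) (j, true) =
      C (j, false) (j, true) (i, false) (i, true) := fun i j => (h.pair _ _ _ _).symm
  simp only [Fin.sum_univ_three]
  rw [q (ι 1) (ι 0), q (ι 2) (ι 0), q (ι 2) (ι 1), q' (ι 1) (ι 0), q' (ι 2) (ι 0),
    q' (ι 2) (ι 1)]
  simp only [if_true, show ((0 : Fin 3) = 1) = False by simp, show ((0 : Fin 3) = 2) = False by simp,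
    show ((1 : Fin 3) = 0) = False by simp, show ((1 : Fin 3) = 2) = False by simp,
    show ((2 : Fin 3) = 0) = False by simp, show ((2 : Fin 3) = 1) = False by simp, if_false]
  unfold tE tau sP sE hP vP
  ring

end

end Pool.Agent.K1H57.HT
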