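import Mathlib.Algebra.QuadraticDiscriminant
import Mathlib.Analysis.SpecialFunctions.Pow.Real
import Mathlib.Tactic.LinearCombination

/-!
# Real inequalities: copositive and positive semidefinite forms in three variables
-/

set_option autoImplicit false

namespace Pool.Agent.K1H57.HT

/-- positive semidefinite symmetric `3 × 3` matrices; `C₁` is the entry `(2, 3)` etc. -/
def Psd (A₁ A₂ A₃ C₁ C₂ C₃ : ℝ) : Prop := ∀ z₁ z₂ z₃ : ℝ,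
  0 ≤ A₁ * z₁ ^ 2 + A₂ * z₂ ^ 2 + A₃ * z₃ ^ 2 + 2 * C₁ * (z₂ * z₃) + 2 * C₂ * (z₁ * z₃) +
    2 * C₃ * (z₁ * z₂)

/-- the condition of nonnegative sectional curvature for torus invariant tensors -/
def Cop (a₁ a₂ a₃ b₁ b₂ b₃ c₁ c₂ c₃ : ℝ) : Prop := ∀ x₁ x₂ x₃ : ℝ,
  0 ≤ a₁ * x₁ ^ 2 + a₂ * x₂ ^ 2 + a₃ * x₃ ^ 2 +
    (2 * b₁ * |x₂ * x₃| + 3 * c₁ * (x₂ * x₃)) + (2 * b₂ * |x₁ * x₃| + 3 * c₂ * (x₁ * x₃)) +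
    (2 * b₃ * |x₁ * x₂| + 3 * c₃ * (x₁ * x₂))

theorem disc2 {p r s : ℝ} (h : ∀ y z : ℝ, 0 ≤ p * y ^ 2 + 2 * r * (y * z) + s * z ^ 2) :
    r ^ 2 ≤ p * s := by
  have h1 := discrim_le_zero (a := p) (b := 2 * r) (c := s) (fun x => by
    have := h x 1
    nlinarith)
  unfold discrim at h1
  nlinarith

theorem Psd.a₁ {A₁ A₂ A₃ C₁ C₂ C₃ : ℝ} (h : Psd A₁ A₂ A₃ C₁ C₂ C₃) : 0 ≤ A₁ := by
  have := h 1 0 0
  linarith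

theorem Psd.a₂ {A₁ A₂ A₃ C₁ C₂ C₃ : ℝ} (h : Psd A₁ A₂ A₃ C₁ C₂ C₃) : 0 ≤ A₂ := by
  have := h 0 1 0
  linarith

theorem Psd.a₃ {A₁ A₂ A₃ C₁ C₂ C₃ : ℝ} (h : Psd A₁ A₂ A₃ C₁ C₂ C₃) : 0 ≤ A₃ := by
  have := h 0 0 1
  linarith

theorem trace2 {A B M p s r : ℝ} (hp : 0 ≤ p) (hs : 0 ≤ s) (hr : 0 ≤ r) (hd : r ^ 2 ≤ p * s)
    (h : ∀ y z : ℝ, 0 ≤ y → 0 ≤ z → 0 ≤ A * y ^ 2 + B * z ^ 2 + M * (y * z)) :
    0 ≤ A * p + B * s + M * r := by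
  have hB : 0 ≤ B := by
    have := h 0 1 le_rfl zero_le_one
    linarith
  rcases hp.eq_or_lt with hp0 | hp0
  · have hr0 : r = 0 := by
      rw [← hp0] at hd
      nlinarith
    rw [← hp0, hr0]
    nlinarith [mul_nonneg hB hs]
  · have h1 := h p r hp hr
    have h2 : 0 ≤ B * (p * s - r ^ 2) := mul_nonneg hB (by linarith)
    have h3 : 0 ≤ p * (A * p + B * s + M * r) := by nlinarith
    exact nonneg_of_mul_nonneg_right h3 hp0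

/-- one step of the decomposition of doubly nonnegative matrices -/
theorem trace3 {A₁ A₂ A₃ C₁ C₂ C₃ a₁ a₂ a₃ m₁ m₂ m₃ : ℝ} (hG : Psd A₁ A₂ A₃ C₁ C₂ C₃)
    (h1 : 0 ≤ C₁) (h2 : 0 ≤ C₂) (h3 : 0 ≤ C₃) (hc : C₂ * C₃ ≤ A₁ * C₁)
    (h : ∀ x₁ x₂ x₃ : ℝ, 0 ≤ x₁ → 0 ≤ x₂ → 0 ≤ x₃ → 0 ≤ a₁ * x₁ ^ 2 + a₂ * x₂ ^ 2 + a₃ * x₃ ^ 2 +
      m₁ * (x₂ * x₃) + m₂ * (x₁ * x₃) + m₃ * (x₁ * x₂)) :
    0 ≤ a₁ * A₁ + a₂ * A₂ + a₃ * A₃ + m₁ * C₁ + m₂ * C₂ + m₃ * C₃ := by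
  rcases hG.a₁.eq_or_lt with h0 | h0
  · have e3 : C₃ = 0 := by
      have := disc2 (p := A₁) (r := C₃) (s := A₂) (fun y z => by
        have := hG y z 0
        nlinarith)
      rw [← h0] at this
      nlinarith
    have e2 : C₂ = 0 := by
      have := disc2 (p := A₁) (r := C₂) (s := A₃) (fun y z => by
        have := hG y 0 z
        nlinarith)
      rw [← h0] at this
      nlinarith
    have e1 := disc2 (p := A₂) (r := C₁) (s := A₃) (fun y z => by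
        have := hG 0 y z
        nlinarith)
    have := trace2 (A := a₂) (B := a₃) (M := m₁) hG.a₂ hG.a₃ h1 e1 (fun y z hy hz => by
      have := h 0 y z le_rfl hy hz
      nlinarith)
    rw [e2, e3, ← h0]
    linarith
  · have hp : 0 ≤ A₁ * A₂ - C₃ ^ 2 := by
      have := disc2 (p := A₁) (r := C₃) (s := A₂) (fun y z => by
        have := hG y z 0
        nlinarith)
      linarith
    have hs : 0 ≤ A₁ * A₃ - C₂ ^ 2 := by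
      have := disc2 (p := A₁) (r := C₂) (s := A₃) (fun y z => by
        have := hG y 0 z
        nlinarith)
      linarith
    have hr : 0 ≤ A₁ * C₁ - C₂ * C₃ := by linarith
    have hd := disc2 (p := A₁ * A₂ - C₃ ^ 2) (r := A₁ * C₁ - C₂ * C₃) (s := A₁ * A₃ - C₂ ^ 2)
      (fun y z => by
        have h4 := hG (-(C₃ * y + C₂ * z)) (A₁ * y) (A₁ * z)
        have h5 : A₁ * (-(C₃ * y + C₂ * z)) ^ 2 + A₂ * (A₁ * y) ^ 2 + A₃ * (A₁ * z) ^ 2 +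
            2 * C₁ * ((A₁ * y) * (A₁ * z)) + 2 * C₂ * ((-(C₃ * y + C₂ * z)) * (A₁ * z)) +
            2 * C₃ * ((-(C₃ * y + C₂ * z)) * (A₁ * y)) =
            A₁ * ((A₁ * A₂ - C₃ ^ 2) * y ^ 2 + 2 * (A₁ * C₁ - C₂ * C₃) * (y * z) +
              (A₁ * A₃ - C₂ ^ 2) * z ^ 2) := by ring
        rw [h5] at h4
        exact nonneg_of_mul_nonneg_right h4 h0)
    have h6 := trace2 (A := a₂) (B := a₃) (M := m₁) hp hs hr hd (fun y z hy hz => by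
      have := h 0 y z le_rfl hy hz
      nlinarith)
    have h7 := h A₁ C₃ C₂ h0.le h3 h2
    have h8 : 0 ≤ A₁ * (a₁ * A₁ + a₂ * A₂ + a₃ * A₃ + m₁ * C₁ + m₂ * C₂ + m₃ * C₃) := by
      nlinarith
    exact nonneg_of_mul_nonneg_right h8 h0

theorem Psd.rot {A₁ A₂ A₃ C₁ C₂ C₃ : ℝ} (h : Psd A₁ A₂ A₃ C₁ C₂ C₃) : Psd A₂ A₃ A₁ C₂ C₃ C₁ := by
  intro z₁ z₂ z₃
  have := h z₃ z₁ z₂
  nlinarith

/-- doubly nonnegative against copositive -/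
theorem trace3' {A₁ A₂ A₃ C₁ C₂ C₃ a₁ a₂ a₃ m₁ m₂ m₃ : ℝ} (hG : Psd A₁ A₂ A₃ C₁ C₂ C₃)
    (h1 : 0 ≤ C₁) (h2 : 0 ≤ C₂) (h3 : 0 ≤ C₃)
    (h : ∀ x₁ x₂ x₃ : ℝ, 0 ≤ x₁ → 0 ≤ x₂ → 0 ≤ x₃ → 0 ≤ a₁ * x₁ ^ 2 + a₂ * x₂ ^ 2 + a₃ * x₃ ^ 2 +
      m₁ * (x₂ * x₃) + m₂ * (x₁ * x₃) + m₃ * (x₁ * x₂)) :
    0 ≤ a₁ * A₁ + a₂ * A₂ + a₃ * A₃ + m₁ * C₁ + m₂ * C₂ + m₃ * C₃ := by
  by_cases c1 : C₂ * C₃ ≤ A₁ * C₁
  · exact trace3 hG h1 h2 h3 c1 h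
  by_cases c2 : C₃ * C₁ ≤ A₂ * C₂
  · have := trace3 (a₁ := a₂) (a₂ := a₃) (a₃ := a₁) (m₁ := m₂) (m₂ := m₃) (m₃ := m₁) hG.rot h2 h3 h1
      c2 (fun x₁ x₂ x₃ k1 k2 k3 => by
        have := h x₃ x₁ x₂ k3 k1 k2
        nlinarith)
    linarith
  by_cases c3 : C₁ * C₂ ≤ A₃ * C₃
  · have := trace3 (a₁ := a₃) (a₂ := a₁) (a₃ := a₂) (m₁ := m₃) (m₂ := m₁) (m₃ := m₂) hG.rot.rot
      h3 h1 h2 c3 (fun x₁ x₂ x₃ k1 k2 k3 => by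
        have := h x₂ x₃ x₁ k2 k3 k1
        nlinarith)
    linarith
  exfalso
  push Not at c1 c2 c3
  have d1 : 0 < C₂ * C₃ := lt_of_le_of_lt (mul_nonneg hG.a₁ h1) c1
  have d2 : 0 < C₃ * C₁ := lt_of_le_of_lt (mul_nonneg hG.a₂ h2) c2
  have p1 : 0 < C₁ := by
    rcases h1.eq_or_lt with h | h
    · rw [← h, mul_zero] at d2; exact absurd d2 (lt_irrefl _)
    · exact h
  have p2 : 0 < C₂ := by
    rcases h2.eq_or_lt with h | h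
    · rw [← h, zero_mul] at d1; exact absurd d1 (lt_irrefl _)
    · exact h
  have e3 := disc2 (p := A₁) (r := C₃) (s := A₂) (fun y z => by
        have := hG y z 0
        nlinarith)
  have e4 : (A₁ * C₁) * (A₂ * C₂) < (C₂ * C₃) * (C₃ * C₁) :=
    mul_lt_mul'' c1 c2 (mul_nonneg hG.a₁ h1) (mul_nonneg hG.a₂ h2)
  have e5 : C₃ ^ 2 * (C₁ * C₂) ≤ (A₁ * A₂) * (C₁ * C₂) :=
    mul_le_mul_of_nonneg_right e3 (mul_pos p1 p2).le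
  nlinarith

theorem pair_bound {a b : ℝ} {β γ : ℝ} (ha : 0 ≤ a) (hb : 0 ≤ b)
    (h : ∀ x y : ℝ, 0 ≤ a * x ^ 2 + b * y ^ 2 + (2 * β * |x * y| + 3 * γ * (x * y))) :
    3 * |γ| ≤ 2 * β + 2 * (Real.sqrt a * Real.sqrt b) := by
  by_cases hk : 3 * |γ| - 2 * β ≤ 0
  · have : 0 ≤ Real.sqrt a * Real.sqrt b := by positivity
    linarith
  push Not at hk
  have h1 := disc2 (p := a) (r := (2 * β - 3 * |γ|) / 2) (s := b) (fun y z => by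
    rcases le_total 0 (y * z) with h0 | h0
    · rcases le_total 0 γ with hg | hg
      · have := h y (-z)
        rw [mul_neg, abs_neg, abs_of_nonneg h0] at this
        rw [abs_of_nonneg hg]
        nlinarith
      · have := h y z
        rw [abs_of_nonneg h0] at this
        rw [abs_of_nonpos hg]
        nlinarith
    · have : 0 ≤ (2 * β - 3 * |γ|) * (y * z) := mul_nonneg_of_nonpos_of_nonpos (by linarith) h0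
      nlinarith [mul_nonneg ha (sq_nonneg y), mul_nonneg hb (sq_nonneg z)])
  have h2 : (3 * |γ| - 2 * β) / 2 ≤ Real.sqrt (a * b) := by
    apply Real.le_sqrt_of_sq_le
    nlinarith
  rw [Real.sqrt_mul ha] at h2
  linarith

namespace Cop

variable {a₁ a₂ a₃ b₁ b₂ b₃ c₁ c₂ c₃ : ℝ} (h : Cop a₁ a₂ a₃ b₁ b₂ b₃ c₁ c₂ c₃)
include h

theorem a1 : 0 ≤ a₁ := by have := h 1 0 0; simp at this; linarith
theorem a2 : 0 ≤ a₂ := by have := h 0 1 0; simp at this; linarith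
theorem a3 : 0 ≤ a₃ := by have := h 0 0 1; simp at this; linarith

theorem p1 : 3 * |c₁| ≤ 2 * b₁ + 2 * (Real.sqrt a₂ * Real.sqrt a₃) :=
  pair_bound h.a2 h.a3 (fun x y => by have := h 0 x y; simpa using this)
theorem p2 : 3 * |c₂| ≤ 2 * b₂ + 2 * (Real.sqrt a₁ * Real.sqrt a₃) :=
  pair_bound h.a1 h.a3 (fun x y => by have := h x 0 y; simpa using this)
theorem p3 : 3 * |c₃| ≤ 2 * b₃ + 2 * (Real.sqrt a₁ * Real.sqrt a₂) :=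
  pair_bound h.a1 h.a2 (fun x y => by have := h x y 0; simpa using this)

/-- a copositive form after a change of signs -/
theorem sgn (e₁ e₂ e₃ : ℝ) (h1 : e₁ ^ 2 = 1) (h2 : e₂ ^ 2 = 1) (h3 : e₃ ^ 2 = 1) (x₁ x₂ x₃ : ℝ)
    (k1 : 0 ≤ x₁) (k2 : 0 ≤ x₂) (k3 : 0 ≤ x₃) :
    0 ≤ a₁ * x₁ ^ 2 + a₂ * x₂ ^ 2 + a₃ * x₃ ^ 2 +
      (2 * b₁ + 3 * c₁ * (e₂ * e₃)) * (x₂ * x₃) + (2 * b₂ + 3 * c₂ * (e₁ * e₃)) * (x₁ * x₃) +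
      (2 * b₃ + 3 * c₃ * (e₁ * e₂)) * (x₁ * x₂) := by
  have hh := h (e₁ * x₁) (e₂ * x₂) (e₃ * x₃)
  have f : ∀ e f x y : ℝ, e ^ 2 = 1 → f ^ 2 = 1 → 0 ≤ x → 0 ≤ y →
      |e * x * (f * y)| = x * y := by
    intro e f x y he hf hx hy
    have h1 : |e| = 1 := by
      have := sq_abs e
      rw [he] at this
      nlinarith [abs_nonneg e]
    have h2 : |f| = 1 := by
      have := sq_abs f
      rw [hf] at this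
      nlinarith [abs_nonneg f]
    rw [abs_mul, abs_mul, abs_mul, h1, h2, abs_of_nonneg hx, abs_of_nonneg hy]
    ring
  rw [f e₂ e₃ x₂ x₃ h2 h3 k2 k3, f e₁ e₃ x₁ x₃ h1 h3 k1 k3, f e₁ e₂ x₁ x₂ h1 h2 k1 k2,
    mul_pow, mul_pow, mul_pow, h1, h2, h3] at hh
  nlinarith

theorem pat {A₁ A₂ A₃ C₁ C₂ C₃ : ℝ} (hG : Psd A₁ A₂ A₃ C₁ C₂ C₃) (e₁ e₂ e₃ : ℝ)
    (h1 : e₁ ^ 2 = 1) (h2 : e₂ ^ 2 = 1) (h3 : e₃ ^ 2 = 1) (k1 : 0 ≤ e₂ * e₃ * C₁)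
    (k2 : 0 ≤ e₁ * e₃ * C₂) (k3 : 0 ≤ e₁ * e₂ * C₃) :
    0 ≤ a₁ * A₁ + a₂ * A₂ + a₃ * A₃ + (2 * b₁ * |C₁| + 3 * c₁ * C₁) +
      (2 * b₂ * |C₂| + 3 * c₂ * C₂) + (2 * b₃ * |C₃| + 3 * c₃ * C₃) := by
  have hG' : Psd A₁ A₂ A₃ (e₂ * e₃ * C₁) (e₁ * e₃ * C₂) (e₁ * e₂ * C₃) := by
    intro z₁ z₂ z₃
    have := hG (e₁ * z₁) (e₂ * z₂) (e₃ * z₃)
    rw [mul_pow, mul_pow, mul_pow, h1, h2, h3] at this
    nlinarith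
  have hh := trace3' hG' k1 k2 k3 (fun x₁ x₂ x₃ => h.sgn e₁ e₂ e₃ h1 h2 h3 x₁ x₂ x₃)
  have f : ∀ e f C : ℝ, e ^ 2 = 1 → f ^ 2 = 1 → 0 ≤ e * f * C → |C| = e * f * C := by
    intro e f C he hf hC
    have h1 : |e * f| = 1 := by
      have := sq_abs (e * f)
      rw [mul_pow, he, hf] at this
      nlinarith [abs_nonneg (e * f)]
    rw [← abs_of_nonneg hC, abs_mul, h1, one_mul]
  rw [f e₂ e₃ C₁ h2 h3 k1, f e₁ e₃ C₂ h1 h3 k2, f e₁ e₂ C₃ h1 h2 k3]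
  have g1 : e₂ * e₃ * (e₂ * e₃ * C₁) = C₁ := by
    linear_combination (e₃ ^ 2 * C₁) * h2 + C₁ * h3
  have g2 : e₁ * e₃ * (e₁ * e₃ * C₂) = C₂ := by
    linear_combination (e₃ ^ 2 * C₂) * h1 + C₂ * h3
  have g3 : e₁ * e₂ * (e₁ * e₂ * C₃) = C₃ := by
    linear_combination (e₂ ^ 2 * C₃) * h1 + C₃ * h2
  have e : a₁ * A₁ + a₂ * A₂ + a₃ * A₃ + (2 * b₁ + 3 * c₁ * (e₂ * e₃)) * (e₂ * e₃ * C₁) +
      (2 * b₂ + 3 * c₂ * (e₁ * e₃)) * (e₁ * e₃ * C₂) +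
      (2 * b₃ + 3 * c₃ * (e₁ * e₂)) * (e₁ * e₂ * C₃) =
      a₁ * A₁ + a₂ * A₂ + a₃ * A₃ + (2 * b₁ * (e₂ * e₃ * C₁) + 3 * c₁ * C₁) +
      (2 * b₂ * (e₁ * e₃ * C₂) + 3 * c₂ * C₂) + (2 * b₃ * (e₁ * e₂ * C₃) + 3 * c₃ * C₃) := by
    linear_combination (3 * c₁) * g1 + (3 * c₂) * g2 + (3 * c₃) * g3
  linarith

theorem npat {A₁ A₂ A₃ C₁ C₂ C₃ : ℝ} (hG : Psd A₁ A₂ A₃ C₁ C₂ C₃) (e₁ e₂ e₃ : ℝ)
    (h1 : e₁ ^ 2 = 1) (h2 : e₂ ^ 2 = 1) (h3 : e₃ ^ 2 = 1) (k1 : e₂ * e₃ * C₁ = -|C₁|)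
    (k2 : e₁ * e₃ * C₂ = -|C₂|) (k3 : e₁ * e₂ * C₃ = -|C₃|) :
    0 ≤ a₁ * A₁ + a₂ * A₂ + a₃ * A₃ + (2 * b₁ * |C₁| + 3 * c₁ * C₁) +
      (2 * b₂ * |C₂| + 3 * c₂ * C₂) + (2 * b₃ * |C₃| + 3 * c₃ * C₃) := by
  have hs := hG (e₁ * Real.sqrt a₁) (e₂ * Real.sqrt a₂) (e₃ * Real.sqrt a₃)
  rw [mul_pow, mul_pow, mul_pow, h1, h2, h3, Real.sq_sqrt h.a1, Real.sq_sqrt h.a2,
    Real.sq_sqrt h.a3] at hs
  have q1 : -(2 * b₁ + 2 * (Real.sqrt a₂ * Real.sqrt a₃)) * |C₁| ≤ 3 * c₁ * C₁ := by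
    have h4 := mul_le_mul_of_nonneg_right h.p1 (abs_nonneg C₁)
    have h5 : -(|c₁| * |C₁|) ≤ c₁ * C₁ := by
      rw [← abs_mul]; exact neg_abs_le _
    linarith
  have q2 : -(2 * b₂ + 2 * (Real.sqrt a₁ * Real.sqrt a₃)) * |C₂| ≤ 3 * c₂ * C₂ := by
    have h4 := mul_le_mul_of_nonneg_right h.p2 (abs_nonneg C₂)
    have h5 : -(|c₂| * |C₂|) ≤ c₂ * C₂ := by
      rw [← abs_mul]; exact neg_abs_le _
    linarith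
  have q3 : -(2 * b₃ + 2 * (Real.sqrt a₁ * Real.sqrt a₂)) * |C₃| ≤ 3 * c₃ * C₃ := by
    have h4 := mul_le_mul_of_nonneg_right h.p3 (abs_nonneg C₃)
    have h5 : -(|c₃| * |C₃|) ≤ c₃ * C₃ := by
      rw [← abs_mul]; exact neg_abs_le _
    linarith
  have r1 : 2 * C₁ * (e₂ * Real.sqrt a₂ * (e₃ * Real.sqrt a₃)) =
      -(2 * (Real.sqrt a₂ * Real.sqrt a₃)) * |C₁| := by
    linear_combination (2 * (Real.sqrt a₂ * Real.sqrt a₃)) * k1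
  have r2 : 2 * C₂ * (e₁ * Real.sqrt a₁ * (e₃ * Real.sqrt a₃)) =
      -(2 * (Real.sqrt a₁ * Real.sqrt a₃)) * |C₂| := by
    linear_combination (2 * (Real.sqrt a₁ * Real.sqrt a₃)) * k2
  have r3 : 2 * C₃ * (e₁ * Real.sqrt a₁ * (e₂ * Real.sqrt a₂)) =
      -(2 * (Real.sqrt a₁ * Real.sqrt a₂)) * |C₃| := by
    linear_combination (2 * (Real.sqrt a₁ * Real.sqrt a₂)) * k3
  rw [r1, r2, r3] at hs
  linarith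

/-- **The pairing of a copositive form of the special type with a positive semidefinite matrix.** -/
theorem psd {A₁ A₂ A₃ C₁ C₂ C₃ : ℝ} (hG : Psd A₁ A₂ A₃ C₁ C₂ C₃) :
    0 ≤ a₁ * A₁ + a₂ * A₂ + a₃ * A₃ + (2 * b₁ * |C₁| + 3 * c₁ * C₁) +
      (2 * b₂ * |C₂| + 3 * c₂ * C₂) + (2 * b₃ * |C₃| + 3 * c₃ * C₃) := by
  have o : (1 : ℝ) ^ 2 = 1 := by norm_num
  have n : (-1 : ℝ) ^ 2 = 1 := by norm_num
  rcases le_total 0 C₁ with s1 | s1 <;> rcases le_total 0 C₂ with s2 | s2 <;>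
    rcases le_total 0 C₃ with s3 | s3
  · exact h.pat hG 1 1 1 o o o (by linarith) (by linarith) (by linarith)
  · exact h.npat hG 1 1 (-1) o o n (by rw [abs_of_nonneg s1]; ring)
      (by rw [abs_of_nonneg s2]; ring) (by rw [abs_of_nonpos s3]; ring)
  · exact h.npat hG 1 (-1) 1 o n o (by rw [abs_of_nonneg s1]; ring)
      (by rw [abs_of_nonpos s2]; ring) (by rw [abs_of_nonneg s3]; ring)
  · exact h.pat hG (-1) 1 1 n o o (by linarith) (by linarith) (by linarith)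
  · exact h.npat hG (-1) 1 1 n o o (by rw [abs_of_nonpos s1]; ring)
      (by rw [abs_of_nonneg s2]; ring) (by rw [abs_of_nonneg s3]; ring)
  · exact h.pat hG 1 (-1) 1 o n o (by linarith) (by linarith) (by linarith)
  · exact h.pat hG 1 1 (-1) o o n (by linarith) (by linarith) (by linarith)
  · exact h.npat hG 1 1 1 o o o (by rw [abs_of_nonpos s1]; ring)
      (by rw [abs_of_nonpos s2]; ring) (by rw [abs_of_nonpos s3]; ring)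

/-- first order -/
theorem ord1 {A₁ A₂ A₃ C₁ C₂ C₃ H₁ H₂ H₃ : ℝ} (hG : Psd A₁ A₂ A₃ C₁ C₂ C₃) (hb₁ : 0 ≤ b₁)
    (hb₂ : 0 ≤ b₂) (hb₃ : 0 ≤ b₃) (h1 : 2 * |C₁| ≤ H₁) (h2 : 2 * |C₂| ≤ H₂) (h3 : 2 * |C₃| ≤ H₃) :
    0 ≤ a₁ * A₁ + a₂ * A₂ + a₃ * A₃ + (b₁ * H₁ + b₂ * H₂ + b₃ * H₃) +
      3 * (c₁ * C₁ + c₂ * C₂ + c₃ * C₃) := by
  have := h.psd hG
  have i1 := mul_le_mul_of_nonneg_left h1 hb₁
  have i2 := mul_le_mul_of_nonneg_left h2 hb₂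
  have i3 := mul_le_mul_of_nonneg_left h3 hb₃
  linarith

theorem deriv1 (h0 : a₁ = 0) (x₁ x₂ x₃ : ℝ) :
    0 ≤ (a₂ * a₃) * x₁ ^ 2 + (a₁ * a₃) * x₂ ^ 2 + (a₁ * a₂) * x₃ ^ 2 +
    (2 * (a₁ * b₁) * |x₂ * x₃| + 3 * (a₁ * c₁) * (x₂ * x₃)) +
    (2 * (a₂ * b₂) * |x₁ * x₃| + 3 * (a₂ * c₂) * (x₁ * x₃)) +
    (2 * (a₃ * b₃) * |x₁ * x₂| + 3 * (a₃ * c₃) * (x₁ * x₂)) := by
  have h2 := h.p2
  have h3 := h.p3
  rw [h0, Real.sqrt_zero, zero_mul, mul_zero, add_zero] at h2 h3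
  have f : ∀ b c t : ℝ, 3 * |c| ≤ 2 * b → 0 ≤ 2 * b * |t| + 3 * c * t := by
    intro b c t hb
    have h4 := mul_le_mul_of_nonneg_right hb (abs_nonneg t)
    have h5 : -(|c| * |t|) ≤ c * t := by
      rw [← abs_mul]; exact neg_abs_le _
    linarith
  have g2 := mul_nonneg h.a2 (f b₂ c₂ (x₁ * x₃) h2)
  have g3 := mul_nonneg h.a3 (f b₃ c₃ (x₁ * x₂) h3)
  have g1 := mul_nonneg (mul_nonneg h.a2 h.a3) (sq_nonneg x₁)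
  rw [h0]
  linarith

omit h in
theorem rot (h : Cop a₁ a₂ a₃ b₁ b₂ b₃ c₁ c₂ c₃) : Cop a₂ a₃ a₁ b₂ b₃ b₁ c₂ c₃ c₁ := by
  intro z₁ z₂ z₃
  have := h z₃ z₁ z₂
  rw [mul_comm z₃ z₁, mul_comm z₃ z₂] at this
  linarith

/-- the derived form -/
theorem deriv : Cop (a₂ * a₃) (a₁ * a₃) (a₁ * a₂) (a₁ * b₁) (a₂ * b₂) (a₃ * b₃)
    (a₁ * c₁) (a₂ * c₂) (a₃ * c₃) := by
  intro x₁ x₂ x₃
  rcases h.a1.eq_or_lt with z1 | z1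
  · exact h.deriv1 z1.symm x₁ x₂ x₃
  rcases h.a2.eq_or_lt with z2 | z2
  · have := h.rot.deriv1 z2.symm x₂ x₃ x₁
    rw [mul_comm x₂ x₁, mul_comm x₃ x₁] at this
    linarith
  rcases h.a3.eq_or_lt with z3 | z3
  · have := h.rot.rot.deriv1 z3.symm x₃ x₁ x₂
    rw [mul_comm x₃ x₂, mul_comm x₃ x₁] at this
    linarith
  have h1 := mul_nonneg (mul_pos (mul_pos z1 z2) z3).le (h (x₁ / a₁) (x₂ / a₂) (x₃ / a₃))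
  have e1 : |x₂ / a₂ * (x₃ / a₃)| = |x₂ * x₃| / (a₂ * a₃) := by
    rw [div_mul_div_comm, abs_div, abs_of_pos (mul_pos z2 z3)]
  have e2 : |x₁ / a₁ * (x₃ / a₃)| = |x₁ * x₃| / (a₁ * a₃) := by
    rw [div_mul_div_comm, abs_div, abs_of_pos (mul_pos z1 z3)]
  have e3 : |x₁ / a₁ * (x₂ / a₂)| = |x₁ * x₂| / (a₁ * a₂) := by
    rw [div_mul_div_comm, abs_div, abs_of_pos (mul_pos z1 z2)]
  rw [e1, e2, e3] at h1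
  refine h1.trans (le_of_eq ?_)
  field_simp

/-- second order -/
theorem ord2 {A₁ A₂ A₃ C₁ C₂ C₃ H₁ H₂ H₃ : ℝ} (hG : Psd A₁ A₂ A₃ C₁ C₂ C₃) (hb₁ : 0 ≤ b₁)
    (hb₂ : 0 ≤ b₂) (hb₃ : 0 ≤ b₃) (h1 : 2 * |C₁| ≤ H₁) (h2 : 2 * |C₂| ≤ H₂) (h3 : 2 * |C₃| ≤ H₃) :
    0 ≤ (8 * a₂ * a₃ + 16 * b₁ ^ 2 + 12 * c₁ ^ 2) * A₁ +
      (8 * a₁ * a₃ + 16 * b₂ ^ 2 + 12 * c₂ ^ 2) * A₂ +
      (8 * a₁ * a₂ + 16 * b₃ ^ 2 + 12 * c₃ ^ 2) * A₃ +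
      (8 * a₁ * b₁ + 16 * b₂ * b₃) * H₁ + (8 * a₂ * b₂ + 16 * b₁ * b₃) * H₂ +
      (8 * a₃ * b₃ + 16 * b₁ * b₂) * H₃ +
      (4 * a₁ * c₁ + 4 * c₂ * c₃) * (6 * C₁) + (4 * a₂ * c₂ + 4 * c₁ * c₃) * (6 * C₂) +
      (4 * a₃ * c₃ + 4 * c₁ * c₂) * (6 * C₃) := by
  have q1 := h.deriv.ord1 hG (mul_nonneg h.a1 hb₁) (mul_nonneg h.a2 hb₂) (mul_nonneg h.a3 hb₃)
    h1 h2 h3
  have q2 := hG c₁ c₂ c₃
  have H1 : 0 ≤ H₁ := le_trans (by positivity) h1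
  have H2 : 0 ≤ H₂ := le_trans (by positivity) h2
  have H3 : 0 ≤ H₃ := le_trans (by positivity) h3
  have r1 := mul_nonneg (sq_nonneg b₁) hG.a₁
  have r2 := mul_nonneg (sq_nonneg b₂) hG.a₂
  have r3 := mul_nonneg (sq_nonneg b₃) hG.a₃
  have r4 := mul_nonneg (mul_nonneg hb₂ hb₃) H1
  have r5 := mul_nonneg (mul_nonneg hb₁ hb₃) H2
  have r6 := mul_nonneg (mul_nonneg hb₁ hb₂) H3
  nlinarith

/-- third order -/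
theorem ord3 (hb₁ : 0 ≤ b₁) (hb₂ : 0 ≤ b₂) (hb₃ : 0 ≤ b₃) :
    0 ≤ 48 * a₁ * a₂ * a₃ + a₁ * (96 * b₁ ^ 2 + 72 * c₁ ^ 2) + a₂ * (96 * b₂ ^ 2 + 72 * c₂ ^ 2) +
      a₃ * (96 * b₃ ^ 2 + 72 * c₃ ^ 2) + 384 * b₁ * b₂ * b₃ + 144 * c₁ * c₂ * c₃ := by
  have p1 := h.p1
  have p2 := h.p2
  have p3 := h.p3
  have e1 := Real.sq_sqrt h.a1
  have e2 := Real.sq_sqrt h.a2
  have e3 := Real.sq_sqrt h.a3
  have n1 := Real.sqrt_nonneg a₁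
  have n2 := Real.sqrt_nonneg a₂
  have n3 := Real.sqrt_nonneg a₃
  generalize Real.sqrt a₁ = s₁ at *
  generalize Real.sqrt a₂ = s₂ at *
  generalize Real.sqrt a₃ = s₃ at *
  have g1 := abs_nonneg c₁
  have g2 := abs_nonneg c₂
  have g3 := abs_nonneg c₃
  have f1 := sq_abs c₁
  have f2 := sq_abs c₂
  have f3 := sq_abs c₃
  have hccc : -(|c₁| * |c₂| * |c₃|) ≤ c₁ * c₂ * c₃ := by
    rw [← abs_mul, ← abs_mul]; exact neg_abs_le _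
  have key : 3 * (|c₁| * |c₂| * |c₃|) ≤ s₁ ^ 2 * s₂ ^ 2 * s₃ ^ 2 +
      s₁ ^ 2 * (2 * b₁ ^ 2 + 3 / 2 * |c₁| ^ 2) + s₂ ^ 2 * (2 * b₂ ^ 2 + 3 / 2 * |c₂| ^ 2) +
      s₃ ^ 2 * (2 * b₃ ^ 2 + 3 / 2 * |c₃| ^ 2) + 8 * b₁ * b₂ * b₃ := by
    generalize |c₁| = d₁ at *
    generalize |c₂| = d₂ at *
    generalize |c₃| = d₃ at *
    have t1 : 3 * (d₁ * d₂ * d₃) ≤ (2 * b₃ + 2 * (s₁ * s₂)) * (d₁ * d₂) := by
      have := mul_le_mul_of_nonneg_right p3 (mul_nonneg g1 g2)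
      linarith
    have t2 : 2 * (s₁ * s₂) * (d₁ * d₂) ≤ (s₁ * d₁) ^ 2 + (s₂ * d₂) ^ 2 := by
      nlinarith [sq_nonneg (s₁ * d₁ - s₂ * d₂)]
    have t3 : 9 * (d₁ * d₂) ≤ (2 * b₁ + 2 * (s₂ * s₃)) * (2 * b₂ + 2 * (s₁ * s₃)) := by
      have := mul_le_mul p1 p2 (by positivity) (by positivity)
      linarith
    have t4 : 9 * (2 * b₃ * (d₁ * d₂)) ≤
        2 * b₃ * ((2 * b₁ + 2 * (s₂ * s₃)) * (2 * b₂ + 2 * (s₁ * s₃))) := by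
      have := mul_le_mul_of_nonneg_left t3 (show 0 ≤ 2 * b₃ by linarith)
      linarith
    have t5 : 0 ≤ b₁ * b₂ * b₃ := by positivity
    nlinarith [sq_nonneg (s₁ * s₂ * s₃ - s₃ * b₃), sq_nonneg (s₃ * b₃ - s₂ * b₂),
      sq_nonneg (s₃ * b₃ - s₁ * b₁), sq_nonneg (s₁ * s₂ * s₃), sq_nonneg (s₃ * b₃),
      sq_nonneg (s₂ * b₂), sq_nonneg (s₁ * b₁), sq_nonneg (s₁ * d₁), sq_nonneg (s₂ * d₂),
      sq_nonneg (s₃ * d₃)]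
  rw [e1, e2, e3, f1, f2, f3] at key
  nlinarith

end Cop

end Pool.Agent.K1H57.HT
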