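import Mathlib.Tactic.LinearCombination
import Mathlib.Tactic.Ring

/-!
# The powers of the element of a torus invariant tensor

Commutative algebra: each of three planes carries elements `p, c, x, g` with the relations of the
exterior algebra of two copies of the plane.
-/

set_option autoImplicit false

namespace Pool.Agent.K1H57.HT

variable {R : Type} [CommRing R]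

/-- the relations of the even part of the exterior algebra of two copies of a plane -/
structure Rel (p c x g v : R) : Prop where
  pp : p * p = 0
  cc : c * c = 0
  pc : p * c = v
  px : p * x = 0
  cx : c * x = 0
  xx : x * x = -2 * v
  gg : g * g = -2 * v
  pg : p * g = 0
  cg : c * g = 0
  xg : x * g = 0

namespace Rel

variable {p c x g v : R} (h : Rel p c x g v)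
include h

theorem vp : v * p = 0 := by linear_combination (-p) * h.pc + c * h.pp
theorem vc : v * c = 0 := by linear_combination (-c) * h.pc + p * h.cc
theorem vx : v * x = 0 := by linear_combination (-x) * h.pc + p * h.cx
theorem vg : v * g = 0 := by linear_combination (-g) * h.pc + p * h.cg
theorem vv : v * v = 0 := by linear_combination (-v) * h.pc + c * h.vp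

end Rel

section two

variable {p₁ c₁ x₁ g₁ v₁ p₂ c₂ x₂ g₂ v₂ p₃ c₃ x₃ g₃ v₃ : R}

/-- the mixed invariant; `2 sE` is used to avoid the factor one half -/
def sE (p₁ c₁ x₁ p₂ c₂ x₂ : R) : R := 2 * (p₁ * c₂ + c₁ * p₂) - x₁ * x₂

theorem sE_swap (p₁ c₁ x₁ p₂ c₂ x₂ : R) : sE p₂ c₂ x₂ p₁ c₁ x₁ = sE p₁ c₁ x₁ p₂ c₂ x₂ := by
  unfold sE; ring

theorem v_sE (h : Rel p₁ c₁ x₁ g₁ v₁) : v₁ * sE p₁ c₁ x₁ p₂ c₂ x₂ = 0 := by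
  unfold sE
  linear_combination (2 * c₂) * h.vp + (2 * p₂) * h.vc - x₂ * h.vx

theorem g_sE (h : Rel p₁ c₁ x₁ g₁ v₁) : g₁ * sE p₁ c₁ x₁ p₂ c₂ x₂ = 0 := by
  unfold sE
  linear_combination (2 * c₂) * h.pg + (2 * p₂) * h.cg - x₂ * h.xg

theorem sE_sq (h₁ : Rel p₁ c₁ x₁ g₁ v₁) (h₂ : Rel p₂ c₂ x₂ g₂ v₂) :
    sE p₁ c₁ x₁ p₂ c₂ x₂ * sE p₁ c₁ x₁ p₂ c₂ x₂ = 12 * (v₁ * v₂) := by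
  have e1 : p₁ * c₂ * (c₁ * p₂) = v₁ * v₂ := by
    linear_combination (c₂ * p₂) * h₁.pc + v₁ * h₂.pc
  have e2 : p₁ * c₂ * (p₁ * c₂) = 0 := by linear_combination (c₂ * c₂) * h₁.pp
  have e3 : c₁ * p₂ * (c₁ * p₂) = 0 := by linear_combination (p₂ * p₂) * h₁.cc
  have e4 : x₁ * x₂ * (x₁ * x₂) = 4 * (v₁ * v₂) := by
    linear_combination (x₂ * x₂) * h₁.xx + (-2 * v₁) * h₂.xx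
  have e5 : p₁ * c₂ * (x₁ * x₂) = 0 := by linear_combination (c₂ * x₂) * h₁.px
  have e6 : c₁ * p₂ * (x₁ * x₂) = 0 := by linear_combination (p₂ * x₂) * h₁.cx
  unfold sE
  linear_combination 8 * e1 + 4 * e2 + 4 * e3 + e4 - 4 * e5 - 4 * e6

theorem sE_mul (h₁ : Rel p₁ c₁ x₁ g₁ v₁) :
    sE p₁ c₁ x₁ p₂ c₂ x₂ * sE p₁ c₁ x₁ p₃ c₃ x₃ = 2 * (v₁ * sE p₂ c₂ x₂ p₃ c₃ x₃) := by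
  unfold sE
  linear_combination (4 * c₂ * c₃) * h₁.pp + (4 * p₂ * p₃) * h₁.cc +
    (4 * (c₂ * p₃ + p₂ * c₃)) * h₁.pc - (2 * (c₂ * x₃ + x₂ * c₃)) * h₁.px -
    (2 * (p₂ * x₃ + x₂ * p₃)) * h₁.cx + (x₂ * x₃) * h₁.xx

end two

/-- the abstract multiplication table of the nine basic elements -/
structure Tab (v₁ v₂ v₃ h₁ h₂ h₃ s₁ s₂ s₃ : R) : Prop where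
  vv₁ : v₁ * v₁ = 0
  vv₂ : v₂ * v₂ = 0
  vv₃ : v₃ * v₃ = 0
  vh₁₂ : v₁ * h₂ = 0
  vh₁₃ : v₁ * h₃ = 0
  vh₂₁ : v₂ * h₁ = 0
  vh₂₃ : v₂ * h₃ = 0
  vh₃₁ : v₃ * h₁ = 0
  vh₃₂ : v₃ * h₂ = 0
  vs₁₂ : v₁ * s₂ = 0
  vs₁₃ : v₁ * s₃ = 0
  vs₂₁ : v₂ * s₁ = 0
  vs₂₃ : v₂ * s₃ = 0
  vs₃₁ : v₃ * s₁ = 0
  vs₃₂ : v₃ * s₂ = 0
  hh₁ : h₁ * h₁ = 4 * (v₂ * v₃)
  hh₂ : h₂ * h₂ = 4 * (v₁ * v₃)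
  hh₃ : h₃ * h₃ = 4 * (v₁ * v₂)
  hh₁₂ : h₁ * h₂ = 2 * (v₃ * h₃)
  hh₁₃ : h₁ * h₃ = 2 * (v₂ * h₂)
  hh₂₃ : h₂ * h₃ = 2 * (v₁ * h₁)
  hs₁₁ : h₁ * s₁ = 0
  hs₁₂ : h₁ * s₂ = 0
  hs₁₃ : h₁ * s₃ = 0
  hs₂₁ : h₂ * s₁ = 0
  hs₂₂ : h₂ * s₂ = 0
  hs₂₃ : h₂ * s₃ = 0
  hs₃₁ : h₃ * s₁ = 0
  hs₃₂ : h₃ * s₂ = 0
  hs₃₃ : h₃ * s₃ = 0
  ss₁ : s₁ * s₁ = 12 * (v₂ * v₃)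
  ss₂ : s₂ * s₂ = 12 * (v₁ * v₃)
  ss₃ : s₃ * s₃ = 12 * (v₁ * v₂)
  ss₁₂ : s₁ * s₂ = 2 * (v₃ * s₃)
  ss₁₃ : s₁ * s₃ = 2 * (v₂ * s₂)
  ss₂₃ : s₂ * s₃ = 2 * (v₁ * s₁)

theorem tab {p₁ c₁ x₁ g₁ v₁ p₂ c₂ x₂ g₂ v₂ p₃ c₃ x₃ g₃ v₃ : R} (h₁ : Rel p₁ c₁ x₁ g₁ v₁)
    (h₂ : Rel p₂ c₂ x₂ g₂ v₂) (h₃ : Rel p₃ c₃ x₃ g₃ v₃) :
    Tab v₁ v₂ v₃ (-(g₂ * g₃)) (-(g₁ * g₃)) (-(g₁ * g₂)) (sE p₂ c₂ x₂ p₃ c₃ x₃)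
      (sE p₁ c₁ x₁ p₃ c₃ x₃) (sE p₁ c₁ x₁ p₂ c₂ x₂) where
  vv₁ := h₁.vv
  vv₂ := h₂.vv
  vv₃ := h₃.vv
  vh₁₂ := by linear_combination (-g₃) * h₁.vg
  vh₁₃ := by linear_combination (-g₂) * h₁.vg
  vh₂₁ := by linear_combination (-g₃) * h₂.vg
  vh₂₃ := by linear_combination (-g₁) * h₂.vg
  vh₃₁ := by linear_combination (-g₂) * h₃.vg
  vh₃₂ := by linear_combination (-g₁) * h₃.vg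
  vs₁₂ := v_sE h₁
  vs₁₃ := v_sE h₁
  vs₂₁ := v_sE h₂
  vs₂₃ := by rw [← sE_swap]; exact v_sE h₂
  vs₃₁ := by rw [← sE_swap]; exact v_sE h₃
  vs₃₂ := by rw [← sE_swap]; exact v_sE h₃
  hh₁ := by linear_combination (g₃ * g₃) * h₂.gg + (-2 * v₂) * h₃.gg
  hh₂ := by linear_combination (g₃ * g₃) * h₁.gg + (-2 * v₁) * h₃.gg
  hh₃ := by linear_combination (g₂ * g₂) * h₁.gg + (-2 * v₁) * h₂.gg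
  hh₁₂ := by linear_combination (g₁ * g₂) * h₃.gg
  hh₁₃ := by linear_combination (g₁ * g₃) * h₂.gg
  hh₂₃ := by linear_combination (g₂ * g₃) * h₁.gg
  hs₁₁ := by linear_combination (-g₃) * g_sE (p₂ := p₃) (c₂ := c₃) (x₂ := x₃) h₂
  hs₁₂ := by
    rw [← sE_swap]
    linear_combination (-g₂) * g_sE (p₂ := p₁) (c₂ := c₁) (x₂ := x₁) h₃
  hs₁₃ := by
    rw [← sE_swap]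
    linear_combination (-g₃) * g_sE (p₂ := p₁) (c₂ := c₁) (x₂ := x₁) h₂
  hs₂₁ := by
    rw [← sE_swap]
    linear_combination (-g₁) * g_sE (p₂ := p₂) (c₂ := c₂) (x₂ := x₂) h₃
  hs₂₂ := by linear_combination (-g₃) * g_sE (p₂ := p₃) (c₂ := c₃) (x₂ := x₃) h₁
  hs₂₃ := by linear_combination (-g₃) * g_sE (p₂ := p₂) (c₂ := c₂) (x₂ := x₂) h₁
  hs₃₁ := by linear_combination (-g₁) * g_sE (p₂ := p₃) (c₂ := c₃) (x₂ := x₃) h₂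
  hs₃₂ := by linear_combination (-g₂) * g_sE (p₂ := p₃) (c₂ := c₃) (x₂ := x₃) h₁
  hs₃₃ := by linear_combination (-g₂) * g_sE (p₂ := p₂) (c₂ := c₂) (x₂ := x₂) h₁
  ss₁ := sE_sq h₂ h₃
  ss₂ := sE_sq h₁ h₃
  ss₃ := sE_sq h₁ h₂
  ss₁₂ := by
    rw [← sE_swap p₂ c₂ x₂ p₃ c₃ x₃, ← sE_swap p₁ c₁ x₁ p₃ c₃ x₃,
      ← sE_swap p₁ c₁ x₁ p₂ c₂ x₂]
    exact sE_mul h₃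
  ss₁₃ := by
    rw [← sE_swap p₁ c₁ x₁ p₂ c₂ x₂, mul_comm]
    rw [mul_comm]
    have := sE_mul (p₂ := p₃) (c₂ := c₃) (x₂ := x₃) (p₃ := p₁) (c₃ := c₁) (x₃ := x₁) h₂
    rw [this, sE_swap]
  ss₂₃ := by
    have := sE_mul (p₂ := p₃) (c₂ := c₃) (x₂ := x₃) (p₃ := p₂) (c₃ := c₂) (x₃ := x₂) h₁
    rw [this, sE_swap]

section powers

variable {v₁ v₂ v₃ h₁ h₂ h₃ s₁ s₂ s₃ : R} (t : Tab v₁ v₂ v₃ h₁ h₂ h₃ s₁ s₂ s₃)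
  (a₁ a₂ a₃ b₁ b₂ b₃ c₁ c₂ c₃ : R)

/-- the element of a torus invariant tensor (up to the factor two) -/
def tau (v₁ v₂ v₃ h₁ h₂ h₃ s₁ s₂ s₃ a₁ a₂ a₃ b₁ b₂ b₃ c₁ c₂ c₃ : R) : R :=
  2 * (a₁ * v₁ + a₂ * v₂ + a₃ * v₃) + 2 * (b₁ * h₁ + b₂ * h₂ + b₃ * h₃) +
    (c₁ * s₁ + c₂ * s₂ + c₃ * s₃)

include t

theorem tau_sq : tau v₁ v₂ v₃ h₁ h₂ h₃ s₁ s₂ s₃ a₁ a₂ a₃ b₁ b₂ b₃ c₁ c₂ c₃ ^ 2 =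
    (8 * a₂ * a₃ + 16 * b₁ ^ 2 + 12 * c₁ ^ 2) * (v₂ * v₃) +
    (8 * a₁ * a₃ + 16 * b₂ ^ 2 + 12 * c₂ ^ 2) * (v₁ * v₃) +
    (8 * a₁ * a₂ + 16 * b₃ ^ 2 + 12 * c₃ ^ 2) * (v₁ * v₂) +
    (8 * a₁ * b₁ + 16 * b₂ * b₃) * (v₁ * h₁) +
    (8 * a₂ * b₂ + 16 * b₁ * b₃) * (v₂ * h₂) +
    (8 * a₃ * b₃ + 16 * b₁ * b₂) * (v₃ * h₃) +
    (4 * a₁ * c₁ + 4 * c₂ * c₃) * (v₁ * s₁) +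
    (4 * a₂ * c₂ + 4 * c₁ * c₃) * (v₂ * s₂) +
    (4 * a₃ * c₃ + 4 * c₁ * c₂) * (v₃ * s₃) := by
  unfold tau
  linear_combination (4 * a₁ ^ 2) * t.vv₁ + (4 * a₂ ^ 2) * t.vv₂ + (4 * a₃ ^ 2) * t.vv₃ +
    (8 * a₁ * b₂) * t.vh₁₂ + (8 * a₁ * b₃) * t.vh₁₃ + (8 * a₂ * b₁) * t.vh₂₁ +
    (8 * a₂ * b₃) * t.vh₂₃ + (8 * a₃ * b₁) * t.vh₃₁ + (8 * a₃ * b₂) * t.vh₃₂ +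
    (4 * a₁ * c₂) * t.vs₁₂ + (4 * a₁ * c₃) * t.vs₁₃ + (4 * a₂ * c₁) * t.vs₂₁ +
    (4 * a₂ * c₃) * t.vs₂₃ + (4 * a₃ * c₁) * t.vs₃₁ + (4 * a₃ * c₂) * t.vs₃₂ +
    (4 * b₁ ^ 2) * t.hh₁ + (4 * b₂ ^ 2) * t.hh₂ + (4 * b₃ ^ 2) * t.hh₃ +
    (8 * b₁ * b₂) * t.hh₁₂ + (8 * b₁ * b₃) * t.hh₁₃ + (8 * b₂ * b₃) * t.hh₂₃ +
    (4 * b₁ * c₁) * t.hs₁₁ + (4 * b₁ * c₂) * t.hs₁₂ + (4 * b₁ * c₃) * t.hs₁₃ +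
    (4 * b₂ * c₁) * t.hs₂₁ + (4 * b₂ * c₂) * t.hs₂₂ + (4 * b₂ * c₃) * t.hs₂₃ +
    (4 * b₃ * c₁) * t.hs₃₁ + (4 * b₃ * c₂) * t.hs₃₂ + (4 * b₃ * c₃) * t.hs₃₃ +
    (c₁ ^ 2) * t.ss₁ + (c₂ ^ 2) * t.ss₂ + (c₃ ^ 2) * t.ss₃ +
    (2 * c₁ * c₂) * t.ss₁₂ + (2 * c₁ * c₃) * t.ss₁₃ + (2 * c₂ * c₃) * t.ss₂₃

theorem vv_tau : v₂ * v₃ * tau v₁ v₂ v₃ h₁ h₂ h₃ s₁ s₂ s₃ a₁ a₂ a₃ b₁ b₂ b₃ c₁ c₂ c₃ =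
    2 * a₁ * (v₁ * v₂ * v₃) := by
  unfold tau
  linear_combination (2 * a₂ * v₃) * t.vv₂ + (2 * a₃ * v₂) * t.vv₃ + (2 * b₁ * v₃) * t.vh₂₁ +
    (2 * b₂ * v₂) * t.vh₃₂ + (2 * b₃ * v₃) * t.vh₂₃ + (c₁ * v₃) * t.vs₂₁ + (c₂ * v₂) * t.vs₃₂ +
    (c₃ * v₃) * t.vs₂₃

theorem vh_tau : v₁ * h₁ * tau v₁ v₂ v₃ h₁ h₂ h₃ s₁ s₂ s₃ a₁ a₂ a₃ b₁ b₂ b₃ c₁ c₂ c₃ =
    8 * b₁ * (v₁ * v₂ * v₃) := by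
  unfold tau
  linear_combination (2 * a₁ * h₁) * t.vv₁ + (2 * a₂ * v₁) * t.vh₂₁ + (2 * a₃ * v₁) * t.vh₃₁ +
    (2 * b₁ * v₁) * t.hh₁ + (2 * b₂ * h₁) * t.vh₁₂ + (2 * b₃ * h₁) * t.vh₁₃ +
    (c₁ * v₁) * t.hs₁₁ + (c₂ * v₁) * t.hs₁₂ + (c₃ * v₁) * t.hs₁₃

theorem vs_tau : v₁ * s₁ * tau v₁ v₂ v₃ h₁ h₂ h₃ s₁ s₂ s₃ a₁ a₂ a₃ b₁ b₂ b₃ c₁ c₂ c₃ =
    12 * c₁ * (v₁ * v₂ * v₃) := by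
  unfold tau
  linear_combination (2 * a₁ * s₁) * t.vv₁ + (2 * a₂ * v₁) * t.vs₂₁ + (2 * a₃ * v₁) * t.vs₃₁ +
    (2 * b₁ * v₁) * t.hs₁₁ + (2 * b₂ * s₁) * t.vh₁₂ + (2 * b₃ * s₁) * t.vh₁₃ +
    (c₁ * v₁) * t.ss₁ + (c₂ * s₁) * t.vs₁₂ + (c₃ * s₁) * t.vs₁₃

omit t in
theorem Tab.cyc (t : Tab v₁ v₂ v₃ h₁ h₂ h₃ s₁ s₂ s₃) : Tab v₂ v₁ v₃ h₂ h₁ h₃ s₂ s₁ s₃ where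
  vv₁ := t.vv₂
  vv₂ := t.vv₁
  vv₃ := t.vv₃
  vh₁₂ := t.vh₂₁
  vh₁₃ := t.vh₂₃
  vh₂₁ := t.vh₁₂
  vh₂₃ := t.vh₁₃
  vh₃₁ := t.vh₃₂
  vh₃₂ := t.vh₃₁
  vs₁₂ := t.vs₂₁
  vs₁₃ := t.vs₂₃
  vs₂₁ := t.vs₁₂
  vs₂₃ := t.vs₁₃
  vs₃₁ := t.vs₃₂
  vs₃₂ := t.vs₃₁
  hh₁ := t.hh₂
  hh₂ := t.hh₁
  hh₃ := by rw [t.hh₃, mul_comm v₁]
  hh₁₂ := by rw [mul_comm, t.hh₁₂]
  hh₁₃ := t.hh₂₃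
  hh₂₃ := t.hh₁₃
  hs₁₁ := t.hs₂₂
  hs₁₂ := t.hs₂₁
  hs₁₃ := t.hs₂₃
  hs₂₁ := t.hs₁₂
  hs₂₂ := t.hs₁₁
  hs₂₃ := t.hs₁₃
  hs₃₁ := t.hs₃₂
  hs₃₂ := t.hs₃₁
  hs₃₃ := t.hs₃₃
  ss₁ := t.ss₂
  ss₂ := t.ss₁
  ss₃ := by rw [t.ss₃, mul_comm v₁]
  ss₁₂ := by rw [mul_comm, t.ss₁₂]
  ss₁₃ := t.ss₂₃
  ss₂₃ := t.ss₁₃

omit t in
theorem Tab.flip (t : Tab v₁ v₂ v₃ h₁ h₂ h₃ s₁ s₂ s₃) : Tab v₃ v₂ v₁ h₃ h₂ h₁ s₃ s₂ s₁ where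
  vv₁ := t.vv₃
  vv₂ := t.vv₂
  vv₃ := t.vv₁
  vh₁₂ := t.vh₃₂
  vh₁₃ := t.vh₃₁
  vh₂₁ := t.vh₂₃
  vh₂₃ := t.vh₂₁
  vh₃₁ := t.vh₁₃
  vh₃₂ := t.vh₁₂
  vs₁₂ := t.vs₃₂
  vs₁₃ := t.vs₃₁
  vs₂₁ := t.vs₂₃
  vs₂₃ := t.vs₂₁
  vs₃₁ := t.vs₁₃
  vs₃₂ := t.vs₁₂
  hh₁ := by rw [t.hh₃, mul_comm v₁]
  hh₂ := by rw [t.hh₂, mul_comm v₁]
  hh₃ := by rw [t.hh₁, mul_comm v₂]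
  hh₁₂ := by rw [mul_comm, t.hh₂₃]
  hh₁₃ := by rw [mul_comm, t.hh₁₃]
  hh₂₃ := by rw [mul_comm, t.hh₁₂]
  hs₁₁ := t.hs₃₃
  hs₁₂ := t.hs₃₂
  hs₁₃ := t.hs₃₁
  hs₂₁ := t.hs₂₃
  hs₂₂ := t.hs₂₂
  hs₂₃ := t.hs₂₁
  hs₃₁ := t.hs₁₃
  hs₃₂ := t.hs₁₂
  hs₃₃ := t.hs₁₁
  ss₁ := by rw [t.ss₃, mul_comm v₁]
  ss₂ := by rw [t.ss₂, mul_comm v₁]
  ss₃ := by rw [t.ss₁, mul_comm v₂]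
  ss₁₂ := by rw [mul_comm, t.ss₂₃]
  ss₁₃ := by rw [mul_comm, t.ss₁₃]
  ss₂₃ := by rw [mul_comm, t.ss₁₂]

theorem tau_cube : tau v₁ v₂ v₃ h₁ h₂ h₃ s₁ s₂ s₃ a₁ a₂ a₃ b₁ b₂ b₃ c₁ c₂ c₃ ^ 3 =
    (48 * a₁ * a₂ * a₃ + a₁ * (96 * b₁ ^ 2 + 72 * c₁ ^ 2) + a₂ * (96 * b₂ ^ 2 + 72 * c₂ ^ 2) +
      a₃ * (96 * b₃ ^ 2 + 72 * c₃ ^ 2) + 384 * b₁ * b₂ * b₃ + 144 * c₁ * c₂ * c₃) *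
      (v₁ * v₂ * v₃) := by
  have e1 := vv_tau t a₁ a₂ a₃ b₁ b₂ b₃ c₁ c₂ c₃
  have e2 := vh_tau t a₁ a₂ a₃ b₁ b₂ b₃ c₁ c₂ c₃
  have e3 := vs_tau t a₁ a₂ a₃ b₁ b₂ b₃ c₁ c₂ c₃
  have f1 := vv_tau t.cyc a₂ a₁ a₃ b₂ b₁ b₃ c₂ c₁ c₃
  have f2 := vh_tau t.cyc a₂ a₁ a₃ b₂ b₁ b₃ c₂ c₁ c₃
  have f3 := vs_tau t.cyc a₂ a₁ a₃ b₂ b₁ b₃ c₂ c₁ c₃
  have g1 := vv_tau t.flip a₃ a₂ a₁ b₃ b₂ b₁ c₃ c₂ c₁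
  have g2 := vh_tau t.flip a₃ a₂ a₁ b₃ b₂ b₁ c₃ c₂ c₁
  have g3 := vs_tau t.flip a₃ a₂ a₁ b₃ b₂ b₁ c₃ c₂ c₁
  have hs := tau_sq t a₁ a₂ a₃ b₁ b₂ b₃ c₁ c₂ c₃
  have k1 : tau v₂ v₁ v₃ h₂ h₁ h₃ s₂ s₁ s₃ a₂ a₁ a₃ b₂ b₁ b₃ c₂ c₁ c₃ =
      tau v₁ v₂ v₃ h₁ h₂ h₃ s₁ s₂ s₃ a₁ a₂ a₃ b₁ b₂ b₃ c₁ c₂ c₃ := by unfold tau; ring
  have k2 : tau v₃ v₂ v₁ h₃ h₂ h₁ s₃ s₂ s₁ a₃ a₂ a₁ b₃ b₂ b₁ c₃ c₂ c₁ =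
      tau v₁ v₂ v₃ h₁ h₂ h₃ s₁ s₂ s₃ a₁ a₂ a₃ b₁ b₂ b₃ c₁ c₂ c₃ := by unfold tau; ring
  rw [k1] at f1 f2 f3
  rw [k2] at g1 g2 g3
  generalize tau v₁ v₂ v₃ h₁ h₂ h₃ s₁ s₂ s₃ a₁ a₂ a₃ b₁ b₂ b₃ c₁ c₂ c₃ = T at *
  linear_combination T * hs + (8 * a₂ * a₃ + 16 * b₁ ^ 2 + 12 * c₁ ^ 2) * e1 +
    (8 * a₁ * a₃ + 16 * b₂ ^ 2 + 12 * c₂ ^ 2) * f1 +
    (8 * a₁ * a₂ + 16 * b₃ ^ 2 + 12 * c₃ ^ 2) * g1 +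
    (8 * a₁ * b₁ + 16 * b₂ * b₃) * e2 + (8 * a₂ * b₂ + 16 * b₁ * b₃) * f2 +
    (8 * a₃ * b₃ + 16 * b₁ * b₂) * g2 +
    (4 * a₁ * c₁ + 4 * c₂ * c₃) * e3 + (4 * a₂ * c₂ + 4 * c₁ * c₃) * f3 +
    (4 * a₃ * c₃ + 4 * c₁ * c₂) * g3

theorem tau_four : tau v₁ v₂ v₃ h₁ h₂ h₃ s₁ s₂ s₃ a₁ a₂ a₃ b₁ b₂ b₃ c₁ c₂ c₃ ^ 4 = 0 := by
  have e1 := vv_tau t a₁ a₂ a₃ b₁ b₂ b₃ c₁ c₂ c₃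
  have e2 := tau_cube t a₁ a₂ a₃ b₁ b₂ b₃ c₁ c₂ c₃
  generalize tau v₁ v₂ v₃ h₁ h₂ h₃ s₁ s₂ s₃ a₁ a₂ a₃ b₁ b₂ b₃ c₁ c₂ c₃ = T at *
  generalize (48 * a₁ * a₂ * a₃ + a₁ * (96 * b₁ ^ 2 + 72 * c₁ ^ 2) + a₂ * (96 * b₂ ^ 2 + 72 * c₂ ^ 2) +
      a₃ * (96 * b₃ ^ 2 + 72 * c₃ ^ 2) + 384 * b₁ * b₂ * b₃ + 144 * c₁ * c₂ * c₃) = F at *
  linear_combination T * e2 + (F * v₁) * e1 + (2 * F * a₁ * v₂ * v₃) * t.vv₁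

end powers

end Pool.Agent.K1H57.HT
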