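import Pool.Agent.Y195.HF.Main
import Pool.Agent.K1H57.HT.Ring
import Pool.Agent.K1H57.HT.Real

/-!
# The elements of three planes in the exterior algebra and the positivity of the powers
-/

set_option autoImplicit false

namespace Pool.Agent.K1H57.HT

open Pool.Agent.Y195.HF Finset

variable {m : ℕ}

/-- elementary skew matrix -/
noncomputable def sk (a b : Fin m × Bool) : Mt m := fun i j =>
  (if i = a then 1 else 0) * (if j = b then 1 else 0) -
    (if i = b then 1 else 0) * (if j = a then 1 else 0)

theorem sk_anti (a b i j : Fin m × Bool) : sk a b j i = - sk a b i j := by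
  simp only [sk]; ring

theorem cj_sk (a b : Fin m × Bool) : cj (sk a b) = sk a b := by
  funext i j
  simp only [cj, sk, map_sub, map_mul]
  congr 1 <;> congr 1 <;> split_ifs <;> simp

theorem ff_sk (s t : Bool) (a b : Fin m × Bool) :
    ff s t (sk a b) = bv (th m s a) (th m t b) - bv (th m s b) (th m t a) := by
  simp only [ff, sk, sub_smul, Finset.sum_sub_distrib, mul_smul, ite_smul, one_smul, zero_smul,
    Finset.sum_ite_eq', Finset.mem_univ, if_true, smul_ite, smul_zero]

theorem ff_sk' (s : Bool) (a b : Fin m × Bool) :
    ff s s (sk a b) = 2 * bv (th m s a) (th m s b) := by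
  rw [ff_sk, bv_swap (th m s a) (th m s b)]
  ring

/-- bivector of the plane in the first copy -/
noncomputable def pP (b : Fin m) : Zc (I2 m → ℂ) := bv (th m false (b, false)) (th m false (b, true))

/-- bivector of the plane in the second copy -/
noncomputable def cP (b : Fin m) : Zc (I2 m → ℂ) := bv (th m true (b, false)) (th m true (b, true))

/-- mixed bivector -/
noncomputable def xP (b : Fin m) : Zc (I2 m → ℂ) :=
  bv (th m false (b, false)) (th m true (b, true)) -
    bv (th m false (b, true)) (th m true (b, false))

/-- the metric of the plane -/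
noncomputable def gP (b : Fin m) : Zc (I2 m → ℂ) :=
  bv (th m false (b, false)) (th m true (b, false)) +
    bv (th m false (b, true)) (th m true (b, true))

/-- the top element of the plane -/
noncomputable def vP (b : Fin m) : Zc (I2 m → ℂ) := pP b * cP b

theorem relP (b : Fin m) : Rel (pP b) (cP b) (xP b) (gP b) (vP b) := by
  have z1 : ∀ (u v w z : I2 m → ℂ), (u = w ∨ u = z) ∨ (v = w ∨ v = z) → bv u v * bv w z = 0 :=
    fun u v w z h => bv_mul_zero h
  have h1 : bv (th m false (b, false)) (th m true (b, true)) *
      bv (th m false (b, true)) (th m true (b, false)) = vP b := by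
    rw [bv_exch, bv_swap (th m true (b, false)) (th m true (b, true)), vP, pP, cP]
    ring
  have h2 : bv (th m false (b, false)) (th m true (b, false)) *
      bv (th m false (b, true)) (th m true (b, true)) = - vP b := by
    rw [bv_exch, vP, pP, cP]
  constructor
  · unfold pP; exact z1 _ _ _ _ (by simp)
  · unfold cP; exact z1 _ _ _ _ (by simp)
  · rfl
  · unfold pP xP; rw [mul_sub, z1 _ _ _ _ (by simp), z1 _ _ _ _ (by simp), sub_zero]
  · unfold cP xP; rw [mul_sub, z1 _ _ _ _ (by simp), z1 _ _ _ _ (by simp), sub_zero]
  · have e1 : bv (th m false (b, false)) (th m true (b, true)) *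
        bv (th m false (b, false)) (th m true (b, true)) = 0 := z1 _ _ _ _ (by simp)
    have e2 : bv (th m false (b, true)) (th m true (b, false)) *
        bv (th m false (b, true)) (th m true (b, false)) = 0 := z1 _ _ _ _ (by simp)
    unfold xP
    linear_combination e1 + e2 - 2 * h1
  · have e1 : bv (th m false (b, false)) (th m true (b, false)) *
        bv (th m false (b, false)) (th m true (b, false)) = 0 := z1 _ _ _ _ (by simp)
    have e2 : bv (th m false (b, true)) (th m true (b, true)) *
        bv (th m false (b, true)) (th m true (b, true)) = 0 := z1 _ _ _ _ (by simp)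
    unfold gP
    linear_combination e1 + e2 + 2 * h2
  · unfold pP gP; rw [mul_add, z1 _ _ _ _ (by simp), z1 _ _ _ _ (by simp), add_zero]
  · unfold cP gP; rw [mul_add, z1 _ _ _ _ (by simp), z1 _ _ _ _ (by simp), add_zero]
  · have e1 : bv (th m false (b, false)) (th m true (b, true)) *
        bv (th m false (b, false)) (th m true (b, false)) = 0 := z1 _ _ _ _ (by simp)
    have e2 : bv (th m false (b, false)) (th m true (b, true)) *
        bv (th m false (b, true)) (th m true (b, true)) = 0 := z1 _ _ _ _ (by simp)
    have e3 : bv (th m false (b, true)) (th m true (b, false)) *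
        bv (th m false (b, false)) (th m true (b, false)) = 0 := z1 _ _ _ _ (by simp)
    have e4 : bv (th m false (b, true)) (th m true (b, false)) *
        bv (th m false (b, true)) (th m true (b, true)) = 0 := z1 _ _ _ _ (by simp)
    unfold xP gP
    linear_combination e1 + e2 - e3 - e4

/-- the skew matrix of the plane -/
noncomputable def eP (b : Fin m) : Mt m := sk (b, false) (b, true)

theorem ff_ff (b : Fin m) : ff false false (eP b) = 2 * pP b := ff_sk' _ _ _
theorem ff_tt (b : Fin m) : ff true true (eP b) = 2 * cP b := ff_sk' _ _ _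
theorem ff_ft (b : Fin m) : ff false true (eP b) = xP b := ff_sk _ _ _ _

theorem vP_inv (b : Fin m) : Inv (vP b) := by
  have h := (qi_inv (A := eP b) (fun i j => sk_anti _ _ i j)).smul (1 / 6)
  have e : (1 / 6 : ℂ) • qi (eP b) = vP b := by
    have h1 : qi (eP b) = (6 : ℂ) • vP b := by
      rw [qi, ff_ff, ff_tt, ff_ft, Algebra.smul_def, map_ofNat]
      linear_combination 4 * (relP b).pc - (relP b).xx
    rw [h1, smul_smul]
    norm_num
  rwa [e] at h

theorem vP_cone (b : Fin m) : vP b ∈ cone m 1 := by
  have h := cone_gen (m := m) (n := 1) (r := 1 / 4) (by norm_num) (fun _ => eP b)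
  rw [Fin.prod_univ_one] at h
  have e : ((1 / 4 : ℝ) : ℂ) • (ff false false (eP b) * ff true true (cj (eP b))) = vP b := by
    have : cj (eP b) = eP b := cj_sk _ _
    rw [this, ff_ff, ff_tt]
    have h1 : (2 * pP b) * (2 * cP b) = (4 : ℂ) • vP b := by
      rw [Algebra.smul_def, map_ofNat, vP]; ring
    rw [h1, smul_smul]
    norm_num
  rwa [e] at h

/-- the value of the functional on a square of a real bivector times an element of the cone -/
theorem sq_pos {A : Mt m} (hA : cj A = A) {T : Zc (I2 m → ℂ)} {n : ℕ} (hT : T ∈ cone m n)
    (hn : 1 + n = m) : 0 ≤ LR m (ff false false A * ff true true A * T) := by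
  have h := cone_gen' (m := m) (n := 1) (fun _ => A)
  rw [Fin.prod_univ_one, hA] at h
  have h1 := cone_mul h hT
  rw [hn] at h1
  obtain ⟨r, hr, hr'⟩ := cone_LF h1
  rw [LR_apply, hr', Complex.ofReal_re]
  exact hr

theorem cone_LR {y : Zc (I2 m → ℂ)} (hy : y ∈ cone m m) : 0 ≤ LR m y := by
  obtain ⟨r, hr, hr'⟩ := cone_LF hy
  rw [LR_apply, hr', Complex.ofReal_re]
  exact hr

/-- the plus and minus combinations for two planes -/
theorem mixed_plus {i j : Fin m} {T : Zc (I2 m → ℂ)} {n : ℕ} (hT : T ∈ cone m n)
    (hn : 1 + n = m) : 0 ≤ LR m ((-(gP i * gP j) + xP i * xP j) * T) := by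
  have h1 := sq_pos (A := sk (i, false) (j, false) - sk (i, true) (j, true)) (by
    have e1 := cj_sk (i, false) (j, false)
    have e2 := cj_sk (i, true) (j, true)
    funext a b
    have f1 := congrFun (congrFun e1 a) b
    have f2 := congrFun (congrFun e2 a) b
    simp only [cj] at f1 f2
    simp only [cj, Pi.sub_apply, map_sub, f1, f2]) hT hn
  have h2 := sq_pos (A := sk (i, false) (j, true) + sk (i, true) (j, false)) (by
    have e1 := cj_sk (i, false) (j, true)
    have e2 := cj_sk (i, true) (j, false)
    funext a b
    have f1 := congrFun (congrFun e1 a) b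
    have f2 := congrFun (congrFun e2 a) b
    simp only [cj] at f1 f2
    simp only [cj, Pi.add_apply, map_add, f1, f2]) hT hn
  have hs : ∀ (s : Bool) (A B : Mt m), ff s s (A - B) = ff s s A - ff s s B := by
    intro s A B
    rw [sub_eq_add_neg, ff_add, ← neg_one_smul ℂ B, ff_smul, neg_one_smul, sub_eq_add_neg]
  have e : (4 : ℝ) • ((-(gP i * gP j) + xP i * xP j) * T) =
      ff false false (sk (i, false) (j, false) - sk (i, true) (j, true)) *
        ff true true (sk (i, false) (j, false) - sk (i, true) (j, true)) * T +
      ff false false (sk (i, false) (j, true) + sk (i, true) (j, false)) *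
        ff true true (sk (i, false) (j, true) + sk (i, true) (j, false)) * T := by
    rw [hs, hs, ff_add, ff_add]
    simp only [ff_sk']
    rw [Algebra.smul_def, map_ofNat]
    unfold gP xP
    have x1 := bv_exch (th m false (i, false)) (th m false (j, false)) (th m true (i, false))
      (th m true (j, false))
    have x2 := bv_exch (th m false (i, true)) (th m false (j, true)) (th m true (i, true))
      (th m true (j, true))
    have x3 := bv_exch (th m false (i, false)) (th m false (j, false)) (th m true (i, true))
      (th m true (j, true))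
    have x4 := bv_exch (th m false (i, true)) (th m false (j, true)) (th m true (i, false))
      (th m true (j, false))
    have x5 := bv_exch (th m false (i, false)) (th m false (j, true)) (th m true (i, false))
      (th m true (j, true))
    have x6 := bv_exch (th m false (i, true)) (th m false (j, false)) (th m true (i, true))
      (th m true (j, false))
    have x7 := bv_exch (th m false (i, false)) (th m false (j, true)) (th m true (i, true))
      (th m true (j, false))
    have x8 := bv_exch (th m false (i, true)) (th m false (j, false)) (th m true (i, false))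
      (th m true (j, true))
    linear_combination (-4 * T) * x1 + (-4 * T) * x2 + (4 * T) * x3 + (4 * T) * x4 +
      (-4 * T) * x5 + (-4 * T) * x6 + (-4 * T) * x7 + (-4 * T) * x8
  have h3 : 0 ≤ LR m ((4 : ℝ) • ((-(gP i * gP j) + xP i * xP j) * T)) := by
    rw [e, map_add]
    exact add_nonneg h1 h2
  rw [map_smul, smul_eq_mul] at h3
  linarith

theorem mixed_minus {i j : Fin m} {T : Zc (I2 m → ℂ)} {n : ℕ} (hT : T ∈ cone m n)
    (hn : 1 + n = m) : 0 ≤ LR m ((-(gP i * gP j) - xP i * xP j) * T) := by
  have h1 := sq_pos (A := sk (i, false) (j, false) + sk (i, true) (j, true)) (by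
    have e1 := cj_sk (i, false) (j, false)
    have e2 := cj_sk (i, true) (j, true)
    funext a b
    have f1 := congrFun (congrFun e1 a) b
    have f2 := congrFun (congrFun e2 a) b
    simp only [cj] at f1 f2
    simp only [cj, Pi.add_apply, map_add, f1, f2]) hT hn
  have h2 := sq_pos (A := sk (i, false) (j, true) - sk (i, true) (j, false)) (by
    have e1 := cj_sk (i, false) (j, true)
    have e2 := cj_sk (i, true) (j, false)
    funext a b
    have f1 := congrFun (congrFun e1 a) b
    have f2 := congrFun (congrFun e2 a) b
    simp only [cj] at f1 f2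
    simp only [cj, Pi.sub_apply, map_sub, f1, f2]) hT hn
  have hs : ∀ (s : Bool) (A B : Mt m), ff s s (A - B) = ff s s A - ff s s B := by
    intro s A B
    rw [sub_eq_add_neg, ff_add, ← neg_one_smul ℂ B, ff_smul, neg_one_smul, sub_eq_add_neg]
  have e : (4 : ℝ) • ((-(gP i * gP j) - xP i * xP j) * T) =
      ff false false (sk (i, false) (j, false) + sk (i, true) (j, true)) *
        ff true true (sk (i, false) (j, false) + sk (i, true) (j, true)) * T +
      ff false false (sk (i, false) (j, true) - sk (i, true) (j, false)) *
        ff true true (sk (i, false) (j, true) - sk (i, true) (j, false)) * T := by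
    rw [hs, hs, ff_add, ff_add]
    simp only [ff_sk']
    rw [Algebra.smul_def, map_ofNat]
    unfold gP xP
    have x1 := bv_exch (th m false (i, false)) (th m false (j, false)) (th m true (i, false))
      (th m true (j, false))
    have x2 := bv_exch (th m false (i, true)) (th m false (j, true)) (th m true (i, true))
      (th m true (j, true))
    have x3 := bv_exch (th m false (i, false)) (th m false (j, false)) (th m true (i, true))
      (th m true (j, true))
    have x4 := bv_exch (th m false (i, true)) (th m false (j, true)) (th m true (i, false))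
      (th m true (j, false))
    have x5 := bv_exch (th m false (i, false)) (th m false (j, true)) (th m true (i, false))
      (th m true (j, true))
    have x6 := bv_exch (th m false (i, true)) (th m false (j, false)) (th m true (i, true))
      (th m true (j, false))
    have x7 := bv_exch (th m false (i, false)) (th m false (j, true)) (th m true (i, true))
      (th m true (j, false))
    have x8 := bv_exch (th m false (i, true)) (th m false (j, false)) (th m true (i, false))
      (th m true (j, true))
    linear_combination (-4 * T) * x1 + (-4 * T) * x2 + (-4 * T) * x3 + (-4 * T) * x4 +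
      (-4 * T) * x5 + (-4 * T) * x6 + (4 * T) * x7 + (4 * T) * x8
  have h3 : 0 ≤ LR m ((4 : ℝ) • ((-(gP i * gP j) - xP i * xP j) * T)) := by
    rw [e, map_add]
    exact add_nonneg h1 h2
  rw [map_smul, smul_eq_mul] at h3
  linarith

/-- action on the elements of a plane -/
theorem map_pP (a b c d : ℂ) (i : Fin m) :
    ExteriorAlgebra.map (act m a b c d) (zval (pP i)) =
      zval ((a ^ 2) • pP i + (a * b) • xP i + (b ^ 2) • cP i) := by
  have h := map_pp a b c d (A := eP i) (fun i j => sk_anti _ _ i j)
  rw [ff_ff, ff_tt, ff_ft] at h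
  have h2 : ∀ y : Zc (I2 m → ℂ), zval (2 * y) = (2 : ℂ) • zval y := by
    intro y
    rw [← map_smul, Algebra.smul_def, map_ofNat]
  rw [h2, map_smul] at h
  have h3 : (a ^ 2) • (2 * pP i) + (2 * a * b) • xP i + (b ^ 2) • (2 * cP i) =
      2 * ((a ^ 2) • pP i + (a * b) • xP i + (b ^ 2) • cP i) := by
    simp only [Algebra.smul_def, map_mul, map_pow, map_ofNat]
    ring
  rw [h3, h2] at h
  have h4 := congrArg (fun z => (1 / 2 : ℂ) • z) h
  simp only [smul_smul] at h4
  norm_num at h4
  exact h4

theorem map_cP (a b c d : ℂ) (i : Fin m) :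
    ExteriorAlgebra.map (act m a b c d) (zval (cP i)) =
      zval ((c ^ 2) • pP i + (c * d) • xP i + (d ^ 2) • cP i) := by
  have h := map_cc a b c d (A := eP i) (fun i j => sk_anti _ _ i j)
  rw [ff_ff, ff_tt, ff_ft] at h
  have h2 : ∀ y : Zc (I2 m → ℂ), zval (2 * y) = (2 : ℂ) • zval y := by
    intro y
    rw [← map_smul, Algebra.smul_def, map_ofNat]
  rw [h2, map_smul] at h
  have h3 : (c ^ 2) • (2 * pP i) + (2 * c * d) • xP i + (d ^ 2) • (2 * cP i) =
      2 * ((c ^ 2) • pP i + (c * d) • xP i + (d ^ 2) • cP i) := by
    simp only [Algebra.smul_def, map_mul, map_pow, map_ofNat]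
    ring
  rw [h3, h2] at h
  have h4 := congrArg (fun z => (1 / 2 : ℂ) • z) h
  simp only [smul_smul] at h4
  norm_num at h4
  exact h4

/-- Invariance of the functional in terms of the elements of two planes. -/
theorem isot {i j : Fin m} {T : Zc (I2 m → ℂ)} (hT : Inv T) :
    LR m ((xP i * xP j + (pP i * cP j + cP i * pP j)) * T) = 0 := by
  -- weight zero
  have w1 : LF m (zval (pP i * pP j * T)) = 0 := by
    have hd : (2 : ℂ) * (1 / 2) - 0 * 0 = 1 := by norm_num
    have h1 := LF_act (m := m) hd (zval (pP i * pP j * T))
    have e : ExteriorAlgebra.map (act m 2 0 0 (1 / 2)) (zval (pP i * pP j * T)) =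
        zval ((16 : ℂ) • (pP i * pP j * T)) := by
      simp only [map_mul, map_pP, hT _ _ _ _ hd]
      simp only [← map_mul]
      congr 1
      simp only [Algebra.smul_def, map_mul, map_pow, map_ofNat, map_zero]
      ring
    rw [e, map_smul, map_smul, smul_eq_mul] at h1
    have h2 : (15 : ℂ) * LF m (zval (pP i * pP j * T)) = 0 := by linear_combination h1
    exact (mul_eq_zero.mp h2).resolve_left (by norm_num)
  have w2 : LF m (zval (cP i * cP j * T)) = 0 := by
    have hd : (1 / 2 : ℂ) * 2 - 0 * 0 = 1 := by norm_num
    have h1 := LF_act (m := m) hd (zval (cP i * cP j * T))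
    have e : ExteriorAlgebra.map (act m (1 / 2) 0 0 2) (zval (cP i * cP j * T)) =
        zval ((16 : ℂ) • (cP i * cP j * T)) := by
      simp only [map_mul, map_cP, hT _ _ _ _ hd]
      simp only [← map_mul]
      congr 1
      simp only [Algebra.smul_def, map_mul, map_pow, map_ofNat, map_zero]
      ring
    rw [e, map_smul, map_smul, smul_eq_mul] at h1
    have h2 : (15 : ℂ) * LF m (zval (cP i * cP j * T)) = 0 := by linear_combination h1
    exact (mul_eq_zero.mp h2).resolve_left (by norm_num)
  have d1 : (1 : ℂ) * 1 - 1 * 0 = 1 := by norm_num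
  have d2 : (1 : ℂ) * 1 - (-1) * 0 = 1 := by norm_num
  have h1 := LF_act (m := m) d1 (zval (pP i * pP j * T))
  have h2 := LF_act (m := m) d2 (zval (pP i * pP j * T))
  have e1 : ExteriorAlgebra.map (act m 1 1 0 1) (zval (pP i * pP j * T)) =
      zval ((pP i + xP i + cP i) * (pP j + xP j + cP j) * T) := by
    simp only [map_mul, map_pP, hT _ _ _ _ d1]
    simp only [← map_mul]
    congr 1
    simp only [Algebra.smul_def, map_mul, map_pow, map_one]
    ring
  have e2 : ExteriorAlgebra.map (act m 1 (-1) 0 1) (zval (pP i * pP j * T)) =
      zval ((pP i - xP i + cP i) * (pP j - xP j + cP j) * T) := by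
    simp only [map_mul, map_pP, hT _ _ _ _ d2]
    simp only [← map_mul]
    congr 1
    simp only [Algebra.smul_def, map_mul, map_pow, map_one, map_neg]
    ring
  rw [e1, w1] at h1
  rw [e2, w1] at h2
  have e3 : (pP i + xP i + cP i) * (pP j + xP j + cP j) * T +
      (pP i - xP i + cP i) * (pP j - xP j + cP j) * T =
      (2 : ℂ) • ((xP i * xP j + (pP i * cP j + cP i * pP j)) * T) +
        (2 : ℂ) • (pP i * pP j * T) + (2 : ℂ) • (cP i * cP j * T) := by
    simp only [Algebra.smul_def, map_ofNat]
    ring
  have h3 : LF m (zval ((pP i + xP i + cP i) * (pP j + xP j + cP j) * T +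
      (pP i - xP i + cP i) * (pP j - xP j + cP j) * T)) = 0 := by
    rw [map_add, map_add, h1, h2, add_zero]
  rw [e3, map_add, map_add, map_add, map_add, map_smul, map_smul, map_smul, map_smul, map_smul,
    map_smul, w1, w2] at h3
  simp only [smul_eq_mul, mul_zero, add_zero] at h3
  have h4 := (mul_eq_zero.mp h3).resolve_left two_ne_zero
  rw [LR_apply, h4, Complex.zero_re]

/-- a Gram type positivity -/
theorem gram {κ : Type} [Fintype κ] {k n : ℕ} (A : κ → Fin k → Mt m)
    (hA : ∀ a b, cj (A a b) = A a b) (z : κ → ℝ) {T : Zc (I2 m → ℂ)} (hT : T ∈ cone m n)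
    (hn : k + n = m) :
    0 ≤ LR m ((∑ a, z a • ∏ b, ff false false (A a b)) *
      (∑ a, z a • ∏ b, ff true true (A a b)) * T) := by
  subst hn
  unfold cone at hT
  induction hT using AddSubmonoid.closure_induction with
  | mem y hy =>
    obtain ⟨r, B, hr, rfl⟩ := hy
    have e : (∑ a, z a • ∏ b, ff false false (A a b)) *
        (∑ a, z a • ∏ b, ff true true (A a b)) *
        ((r : ℂ) • ∏ b, (ff false false (B b) * ff true true (cj (B b)))) =
        ∑ a, ∑ a', (r * (z a * z a') : ℝ) • ∏ b : Fin (k + n),
          (ff false false (Fin.append (A a) B b) *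
            ff true true (Fin.append (A a') (fun b => cj (B b)) b)) := by
      rw [Finset.sum_mul_sum, Finset.sum_mul]
      refine Finset.sum_congr rfl fun a _ => ?_
      rw [Finset.sum_mul]
      refine Finset.sum_congr rfl fun a' _ => ?_
      rw [Fin.prod_univ_add]
      simp only [Fin.append_left, Fin.append_right, Finset.prod_mul_distrib]
      rw [Complex.coe_smul]
      simp only [Algebra.smul_def, map_mul]
      ring
    rw [e, LR_apply, map_sum, map_sum, Complex.re_sum]
    have e2 : ∀ a, (LF (k + n) (zval (∑ a', (r * (z a * z a') : ℝ) • ∏ b : Fin (k + n),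
          (ff false false (Fin.append (A a) B b) *
            ff true true (Fin.append (A a') (fun b => cj (B b)) b))))).re =
        r * ∑ a', z a * z a' * (lam (Fin.append (A a) B) *
          (starRingEnd ℂ) (lam (Fin.append (A a') B))).re := by
      intro a
      rw [map_sum, map_sum, Complex.re_sum, Finset.mul_sum]
      refine Finset.sum_congr rfl fun a' _ => ?_
      rw [← Complex.coe_smul, map_smul, map_smul, LF_prod, smul_eq_mul, Complex.re_ofReal_mul]
      have h3 : (fun b => cj (Fin.append (A a') B b)) = Fin.append (A a') (fun b => cj (B b)) := by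
        funext b
        refine Fin.addCases (fun b => ?_) (fun b => ?_) b
        · rw [Fin.append_left, Fin.append_left, hA]
        · rw [Fin.append_right, Fin.append_right]
      rw [← lam_cj, h3]
      ring
    simp only [e2]
    rw [← Finset.mul_sum]
    refine mul_nonneg hr ?_
    have h4 : ∑ a, ∑ a', z a * z a' * (lam (Fin.append (A a) B) *
          (starRingEnd ℂ) (lam (Fin.append (A a') B))).re =
        Complex.normSq (∑ a, (z a : ℂ) * lam (Fin.append (A a) B)) := by
      have h5 : ((Complex.normSq (∑ a, (z a : ℂ) * lam (Fin.append (A a) B)) : ℝ) : ℂ) =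
          ∑ a, ∑ a', ((z a * z a' : ℝ) : ℂ) * (lam (Fin.append (A a) B) *
            (starRingEnd ℂ) (lam (Fin.append (A a') B))) := by
        rw [← Complex.mul_conj, map_sum, Finset.sum_mul_sum]
        refine Finset.sum_congr rfl fun a _ => Finset.sum_congr rfl fun a' _ => ?_
        rw [map_mul, Complex.conj_ofReal]
        push_cast
        ring
      have h6 := congrArg Complex.re h5
      rw [Complex.ofReal_re, Complex.re_sum] at h6
      rw [h6]
      refine Finset.sum_congr rfl fun a _ => ?_
      rw [Complex.re_sum]
      refine Finset.sum_congr rfl fun a' _ => ?_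
      rw [Complex.re_ofReal_mul]
    rw [h4]
    exact Complex.normSq_nonneg _
  | zero => rw [mul_zero, map_zero]
  | add x y _ _ hx hy =>
    rw [mul_add, map_add]
    exact add_nonneg hx hy

end Pool.Agent.K1H57.HT
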