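import Pool.Agent.K1H57.HT.Normal

/-!
# Torus invariant curvature tensors on a Euclidean space
-/

set_option autoImplicit false

namespace Pool.Agent.K1H57.HT

open Pool.Agent.Y195.HF Pool.Agent.W666.GB Pool.Agent.W669.HD Finset

variable {m : ℕ} {V : Type} [NormedAddCommGroup V] [InnerProductSpace ℝ V]

/-- For orthonormal `a`, `b`: the quarter turn of the plane of `a` and `b` which maps `a` to `b`
and `b` to `-a` and fixes the orthogonal complement of the plane. -/
noncomputable def quarter (a b x : V) : V :=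
  x - (inner ℝ a x : ℝ) • a - (inner ℝ b x : ℝ) • b + (inner ℝ a x : ℝ) • b - (inner ℝ b x : ℝ) • a

/-- The tensor lives on a subspace which is the orthogonal sum of three planes, and is invariant
under the quarter turns of the three planes. -/
def TorusInv (T : V → V → V → V → ℝ) : Prop :=
  ∃ u : Fin 3 × Bool → V, Orthonormal ℝ u ∧ LivesOn (Submodule.span ℝ (Set.range u)) T ∧
    ∀ (k : Fin 3) (x y z w : V),
      T (quarter (u (k, false)) (u (k, true)) x) (quarter (u (k, false)) (u (k, true)) y)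
        (quarter (u (k, false)) (u (k, true)) z) (quarter (u (k, false)) (u (k, true)) w) =
      T x y z w

theorem quarter_basis (e : OrthonormalBasis (Fin m × Bool) ℝ V) (n : Fin m) (a : Fin m × Bool) :
    quarter (e (n, false)) (e (n, true)) (e a) = sg n a • e (fl n a) := by
  have h := orthonormal_iff_ite.mp e.orthonormal
  obtain ⟨i, s⟩ := a
  unfold quarter
  rw [h, h]
  by_cases hi : i = n
  · subst hi
    cases s <;> simp [sg, fl]
  · have h1 : ∀ t, ((n, t) : Fin m × Bool) ≠ (i, s) := fun t ht => hi (congrArg Prod.fst ht).symm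
    simp [sg, fl, hi, h1]

/-- adapted basis -/
theorem adapted (e : OrthonormalBasis (Fin m × Bool) ℝ V) (u : Fin 3 × Bool → V)
    (hu : Orthonormal ℝ u) : ∃ (ι : Fin 3 → Fin m) (e' : OrthonormalBasis (Fin m × Bool) ℝ V),
      Function.Injective ι ∧ ∀ k s, e' (ι k, s) = u (k, s) := by
  have hfin : Module.finrank ℝ V = Fintype.card (Fin m × Bool) :=
    Module.finrank_eq_card_basis e.toBasis
  haveI : FiniteDimensional ℝ V := Module.Basis.finiteDimensional_of_finite e.toBasis
  have h3 : 3 ≤ m := by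
    have := hu.linearIndependent.fintype_card_le_finrank
    rw [hfin] at this
    simp only [Fintype.card_prod, Fintype.card_fin, Fintype.card_bool] at this
    omega
  set v : Fin m × Bool → V := fun a => if h : a.1.val < 3 then u (⟨a.1.val, h⟩, a.2) else 0 with hv
  have hs : Orthonormal ℝ (({a : Fin m × Bool | a.1.val < 3}).restrict v) := by
    have h1 : ({a : Fin m × Bool | a.1.val < 3}).restrict v =
        u ∘ fun a : {a : Fin m × Bool | a.1.val < 3} => ((⟨a.1.1.val, a.2⟩ : Fin 3), a.1.2) := by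
      funext a
      have ha : a.1.1.val < 3 := a.2
      exact dif_pos ha
    rw [h1]
    refine hu.comp _ ?_
    rintro ⟨⟨i, s⟩, hi⟩ ⟨⟨j, t⟩, hj⟩ hij
    simp only [Prod.mk.injEq, Fin.mk.injEq] at hij
    obtain ⟨h1, h2⟩ := hij
    simp only [Subtype.mk.injEq, Prod.mk.injEq]
    exact ⟨Fin.ext h1, h2⟩
  obtain ⟨b, hb⟩ := hs.exists_orthonormalBasis_extension_of_card_eq hfin
  refine ⟨Fin.castLE h3, b, Fin.castLE_injective h3, fun k s => ?_⟩
  have hk : ((Fin.castLE h3 k, s) : Fin m × Bool).1.val < 3 := k.isLt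
  rw [hb _ hk, hv]
  simp

section comp

variable {T : V → V → V → V → ℝ} (hT : AlgCurv T) {u : Fin 3 × Bool → V}
  (hL : LivesOn (Submodule.span ℝ (Set.range u)) T)
  (hq : ∀ (k : Fin 3) (x y z w : V),
      T (quarter (u (k, false)) (u (k, true)) x) (quarter (u (k, false)) (u (k, true)) y)
        (quarter (u (k, false)) (u (k, true)) z) (quarter (u (k, false)) (u (k, true)) w) =
      T x y z w)
  {ι : Fin 3 → Fin m} {e : OrthonormalBasis (Fin m × Bool) ℝ V}
  (he : ∀ k s, e (ι k, s) = u (k, s))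

include hT in
theorem smul4 (a b c d : ℝ) (x y z w : V) :
    T (a • x) (b • y) (c • z) (d • w) = a * b * c * d * T x y z w := by
  have h2 : ∀ (t : ℝ) (x y z w : V), T x (t • y) z w = t * T x y z w := fun t x y z w => by
    rw [hT.anti, hT.smul, hT.anti y x]; ring
  have h3 : ∀ (t : ℝ) (x y z w : V), T x y (t • z) w = t * T x y z w := fun t x y z w => by
    rw [hT.pair (t • z), hT.smul, hT.pair]
  have h4 : ∀ (t : ℝ) (x y z w : V), T x y z (t • w) = t * T x y z w := fun t x y z w => by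
    rw [hT.pair z (t • w), h2, hT.pair]
  rw [hT.smul, h2, h3, h4]
  ring

include hL he in
theorem supp {a : Fin m × Bool} (ha : ∀ k, a.1 ≠ ι k) (y z w : V) : T (e a) y z w = 0 := by
  apply hL
  rw [Submodule.mem_orthogonal]
  intro x hx
  refine Submodule.span_induction ?_ ?_ ?_ ?_ hx
  · rintro x ⟨⟨k, s⟩, rfl⟩
    rw [← he]
    refine e.orthonormal.2 ?_
    intro h
    exact ha k (congrArg Prod.fst h).symm
  · exact inner_zero_left _
  · intro x y _ _ hx hy
    rw [inner_add_left, hx, hy, add_zero]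
  · intro t x _ hx
    rw [inner_smul_left, hx, mul_zero]

include hT hL hq he in
theorem tinv : TInv (cp e T) where
  anti a b c d := hT.anti _ _ _ _
  pair a b c d := hT.pair _ _ _ _
  bia a b c d := hT.bianchi _ _ _ _
  inv n a b c d := by
    have z1 : ∀ {a : Fin m × Bool} (_ : ∀ k, a.1 ≠ ι k) (y z w : V), T (e a) y z w = 0 :=
      fun ha y z w => supp hL he ha y z w
    have z2 : ∀ {a : Fin m × Bool} (_ : ∀ k, a.1 ≠ ι k) (y z w : V), T y (e a) z w = 0 :=
      fun ha y z w => by rw [hT.anti, z1 ha, neg_zero]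
    have z3 : ∀ {a : Fin m × Bool} (_ : ∀ k, a.1 ≠ ι k) (y z w : V), T y z (e a) w = 0 :=
      fun ha y z w => by rw [hT.pair, z1 ha]
    have z4 : ∀ {a : Fin m × Bool} (_ : ∀ k, a.1 ≠ ι k) (y z w : V), T y z w (e a) = 0 :=
      fun ha y z w => by rw [hT.pair, z2 ha]
    have hfl : ∀ a : Fin m × Bool, (fl n a).1 = a.1 := by
      intro a
      unfold fl
      split_ifs <;> rfl
    by_cases hn : ∃ k, n = ι k
    · obtain ⟨k, rfl⟩ := hn
      have h1 := hq k (e a) (e b) (e c) (e d)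
      rw [← he, ← he, quarter_basis, quarter_basis, quarter_basis, quarter_basis, smul4 hT] at h1
      exact h1
    · have hn' : ∀ k, n ≠ ι k := fun k hk => hn ⟨k, hk⟩
      unfold cp
      by_cases ha : a.1 = n
      · have h1 : ∀ k, a.1 ≠ ι k := ha ▸ hn'
        rw [z1 (a := fl n a) (by rw [hfl]; exact h1), z1 h1, mul_zero]
      by_cases hb : b.1 = n
      · have h1 : ∀ k, b.1 ≠ ι k := hb ▸ hn'
        rw [z2 (a := fl n b) (by rw [hfl]; exact h1), z2 h1, mul_zero]
      by_cases hc : c.1 = n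
      · have h1 : ∀ k, c.1 ≠ ι k := hc ▸ hn'
        rw [z3 (a := fl n c) (by rw [hfl]; exact h1), z3 h1, mul_zero]
      by_cases hd : d.1 = n
      · have h1 : ∀ k, d.1 ≠ ι k := hd ▸ hn'
        rw [z4 (a := fl n d) (by rw [hfl]; exact h1), z4 h1, mul_zero]
      simp [sg, fl, ha, hb, hc, hd]

end comp

/-- sectional curvatures of a torus invariant tensor -/
theorem TInv.sec {C : T4 m} (h : TInv C) {ι : Fin 3 → Fin m} (hι : Function.Injective ι)
    (r s : Fin 3 → ℝ) :
    ∑ k, ∑ l, ∑ k', ∑ l', r k * s l * r k' * s l' *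
        C (ι k, false) (ι l, true) (ι k', false) (ι l', true) =
    C (ι 0, false) (ι 0, true) (ι 0, false) (ι 0, true) * (r 0 * s 0) ^ 2 +
    C (ι 1, false) (ι 1, true) (ι 1, false) (ι 1, true) * (r 1 * s 1) ^ 2 +
    C (ι 2, false) (ι 2, true) (ι 2, false) (ι 2, true) * (r 2 * s 2) ^ 2 +
    (C (ι 1, false) (ι 2, false) (ι 1, false) (ι 2, false) *
        (r 1 ^ 2 * s 2 ^ 2 + r 2 ^ 2 * s 1 ^ 2) +
      3 * C (ι 1, false) (ι 1, true) (ι 2, false) (ι 2, true) * ((r 1 * s 1) * (r 2 * s 2))) +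
    (C (ι 0, false) (ι 2, false) (ι 0, false) (ι 2, false) *
        (r 0 ^ 2 * s 2 ^ 2 + r 2 ^ 2 * s 0 ^ 2) +
      3 * C (ι 0, false) (ι 0, true) (ι 2, false) (ι 2, true) * ((r 0 * s 0) * (r 2 * s 2))) +
    (C (ι 0, false) (ι 1, false) (ι 0, false) (ι 1, false) *
        (r 0 ^ 2 * s 1 ^ 2 + r 1 ^ 2 * s 0 ^ 2) +
      3 * C (ι 0, false) (ι 0, true) (ι 1, false) (ι 1, true) * ((r 0 * s 0) * (r 1 * s 1))) := by
  obtain ⟨D, hD⟩ : ∃ D : Fin 3 → Fin 3 → ℝ, ∀ k l,
      C (ι k, false) (ι k, true) (ι l, false) (ι l, true) = D k l := ⟨_, fun _ _ => rfl⟩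
  obtain ⟨B, hB⟩ : ∃ B : Fin 3 → Fin 3 → ℝ, ∀ k l,
      C (ι k, false) (ι l, false) (ι k, false) (ι l, false) = B k l := ⟨_, fun _ _ => rfl⟩
  have val : ∀ k l k' l' : Fin 3, C (ι k, false) (ι l, true) (ι k', false) (ι l', true) =
      if k = l then (if k' = l' then D k k' else 0)
      else if k' = k ∧ l' = l then B k l
      else if k' = l ∧ l' = k then D k l / 2
      else 0 := by
    intro k l k' l'
    split_ifs with h1 h2 h3 h4
    · subst h1; subst h2; exact hD _ _
    · subst h1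
      exact h.z1 (fun hh => h2 (hι hh)) _ _ _ _
    · obtain ⟨rfl, rfl⟩ := h3
      have hv := (h.vij (i := ι k') (j := ι l') (fun hh => h1 (hι hh))).1 false true
      rw [hv]
      exact hB _ _
    · obtain ⟨rfl, rfl⟩ := h4
      have hv := (h.vij (i := ι l') (j := ι k') (fun hh => h1 (hι hh))).2.2.2.2.2.1
      rw [h.anti', hv, hD]
      ring
    · refine h.z2 (fun hh => h1 (hι hh)) (fun hh => h3 ⟨hι hh.1, hι hh.2⟩)
        (fun hh => h4 ⟨hι hh.1, hι hh.2⟩) _ _ _ _
  simp only [hD, hB]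
  simp only [val]
  have q : ∀ i j, C (i, false) (j, false) (i, false) (j, false) =
      C (j, false) (i, false) (j, false) (i, false) := by
    intro i j
    rw [h.anti, h.anti', neg_neg]
  have q' : ∀ i j, C (i, false) (i, true) (j, false) (j, true) =
      C (j, false) (j, true) (i, false) (i, true) := fun i j => (h.pair _ _ _ _).symm
  have q1 := q (ι 0) (ι 1)
  have q2 := q (ι 0) (ι 2)
  have q3 := q (ι 1) (ι 2)
  have q4 := q' (ι 0) (ι 1)
  have q5 := q' (ι 0) (ι 2)
  have q6 := q' (ι 1) (ι 2)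
  rw [hB, hB] at q1 q2 q3
  rw [hD, hD] at q4 q5 q6
  simp only [Fin.sum_univ_three]
  simp only [show ((0 : Fin 3) = 1) = False by simp, show ((0 : Fin 3) = 2) = False by simp,
    show ((1 : Fin 3) = 0) = False by simp, show ((1 : Fin 3) = 2) = False by simp,
    show ((2 : Fin 3) = 0) = False by simp, show ((2 : Fin 3) = 1) = False by simp, if_false,
    if_true, and_true, and_false, false_and, and_self, mul_zero, add_zero, zero_add]
  rw [q1, q2, q3, q4, q5, q6]
  ring

theorem expand_sec {T : V → V → V → V → ℝ} (hT : AlgCurv T) (E F : Fin 3 → V) (r s : Fin 3 → ℝ) :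
    T (∑ k, r k • E k) (∑ l, s l • F l) (∑ k, r k • E k) (∑ l, s l • F l) =
      ∑ k, ∑ l, ∑ k', ∑ l', r k * s l * r k' * s l' * T (E k) (F l) (E k') (F l') := by
  have hB := Pool.Agent.W150.HD.curv_bi hT
  have l1 : ∀ (c : Fin 3 → ℝ) (f : Fin 3 → V) (y z w : V), T (∑ k, c k • f k) y z w =
      ∑ k, c k * T (f k) y z w := by
    intro c f y z w
    simp only [Fin.sum_univ_three, hT.add, hT.smul]
  have l2 : ∀ (c : Fin 3 → ℝ) (f : Fin 3 → V) (y z w : V), T y (∑ k, c k • f k) z w =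
      ∑ k, c k * T y (f k) z w := by
    intro c f y z w
    rw [hT.anti, l1, ← Finset.sum_neg_distrib]
    refine Finset.sum_congr rfl fun k _ => ?_
    rw [hT.anti y (f k)]; ring
  have l3 : ∀ (c : Fin 3 → ℝ) (f : Fin 3 → V) (y z w : V), T y z (∑ k, c k • f k) w =
      ∑ k, c k * T y z (f k) w := by
    intro c f y z w
    rw [hT.pair, l1]
    exact Finset.sum_congr rfl fun k _ => by rw [hT.pair]
  have l4 : ∀ (c : Fin 3 → ℝ) (f : Fin 3 → V) (y z w : V), T y z w (∑ k, c k • f k) =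
      ∑ k, c k * T y z w (f k) := by
    intro c f y z w
    rw [hT.pair, l2]
    exact Finset.sum_congr rfl fun k _ => by rw [hT.pair]
  rw [l1]
  refine Finset.sum_congr rfl fun k _ => ?_
  rw [l2, Finset.mul_sum]
  refine Finset.sum_congr rfl fun l _ => ?_
  rw [l3, Finset.mul_sum, Finset.mul_sum]
  refine Finset.sum_congr rfl fun k' _ => ?_
  rw [l4, Finset.mul_sum, Finset.mul_sum, Finset.mul_sum]
  refine Finset.sum_congr rfl fun l' _ => ?_
  ring

/-- **Components** of a torus invariant curvature tensor of nonnegative sectional curvature. -/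
theorem cop_of {T : V → V → V → V → ℝ} (hT : AlgCurv T) (hK : ∀ x y, 0 ≤ T x y x y)
    {ι : Fin 3 → Fin m} (hι : Function.Injective ι) {e : OrthonormalBasis (Fin m × Bool) ℝ V}
    (h : TInv (cp e T)) :
    Cop (cp e T (ι 0, false) (ι 0, true) (ι 0, false) (ι 0, true))
      (cp e T (ι 1, false) (ι 1, true) (ι 1, false) (ι 1, true))
      (cp e T (ι 2, false) (ι 2, true) (ι 2, false) (ι 2, true))
      (cp e T (ι 1, false) (ι 2, false) (ι 1, false) (ι 2, false))
      (cp e T (ι 0, false) (ι 2, false) (ι 0, false) (ι 2, false))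
      (cp e T (ι 0, false) (ι 1, false) (ι 0, false) (ι 1, false))
      (cp e T (ι 1, false) (ι 1, true) (ι 2, false) (ι 2, true))
      (cp e T (ι 0, false) (ι 0, true) (ι 2, false) (ι 2, true))
      (cp e T (ι 0, false) (ι 0, true) (ι 1, false) (ι 1, true)) := by
  intro x₁ x₂ x₃
  -- square roots
  have key : ∀ x : ℝ, ∃ r s : ℝ, r * s = x ∧ r ^ 2 = |x| ∧ s ^ 2 = |x| := by
    intro x
    rcases le_total 0 x with hx | hx
    · refine ⟨Real.sqrt x, Real.sqrt x, Real.mul_self_sqrt hx, ?_, ?_⟩ <;>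
        rw [abs_of_nonneg hx, Real.sq_sqrt hx]
    · have hx' : 0 ≤ -x := by linarith
      refine ⟨Real.sqrt (-x), -Real.sqrt (-x), ?_, ?_, ?_⟩
      · rw [mul_neg, Real.mul_self_sqrt hx', neg_neg]
      · rw [abs_of_nonpos hx, Real.sq_sqrt hx']
      · rw [abs_of_nonpos hx, neg_sq, Real.sq_sqrt hx']
  obtain ⟨r₁, s₁, h1, h1', h1''⟩ := key x₁
  obtain ⟨r₂, s₂, h2, h2', h2''⟩ := key x₂
  obtain ⟨r₃, s₃, h3, h3', h3''⟩ := key x₃
  have h4 := hK (∑ k : Fin 3, ![r₁, r₂, r₃] k • e (ι k, false))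
    (∑ k : Fin 3, ![s₁, s₂, s₃] k • e (ι k, true))
  rw [expand_sec hT] at h4
  have h5 := h.sec hι ![r₁, r₂, r₃] ![s₁, s₂, s₃]
  have h6 : ∀ k l k' l' : Fin 3, T (e (ι k, false)) (e (ι l, true)) (e (ι k', false))
      (e (ι l', true)) = cp e T (ι k, false) (ι l, true) (ι k', false) (ι l', true) :=
    fun _ _ _ _ => rfl
  simp only [h6] at h4
  rw [h5] at h4
  simp only [Matrix.cons_val_zero, Matrix.cons_val_one, Matrix.cons_val_two, Matrix.head_cons,
    Matrix.tail_cons, h1, h2, h3, h1', h2', h3', h1'', h2'', h3''] at h4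
  rw [abs_mul, abs_mul, abs_mul]
  linarith

end Pool.Agent.K1H57.HT
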